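import Mathlib
import Pool.Agent.Work.MP_f1d084_lc.B.Psi

set_option autoImplicit false

namespace Pool.Agent.Work.MP_f1d084_lc

open FirstOrder

section levels

variable {X : Type} [TopologicalSpace X]

/-- The finite levels of the Borel hierarchy: level `0` are the open sets, level `n + 1` the
countable unions of complements of sets of level `n`. -/
def Sg {X : Type} [TopologicalSpace X] : ℕ → Set X → Prop
  | 0 => fun A => IsOpen A
  | n + 1 => fun A => ∃ B : ℕ → Set X, (∀ i, Sg n (B i)) ∧ A = ⋃ i, (B i)ᶜ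

/-- The countable intersections of countable unions of countable intersections of sets of finite
level, that is the additive-multiplicative class `Π_(ω+2)`. -/
def PiW2 (A : Set X) : Prop :=
  ∃ B : ℕ → ℕ → ℕ → Set X, (∀ i j k, ∃ n, Sg n (B i j k)) ∧ A = ⋂ i, ⋃ j, ⋂ k, B i j k

/-- Both the set and its complement are of level `n`. -/
def Dl (n : ℕ) (A : Set X) : Prop := Sg n A ∧ Sg n Aᶜ

theorem Dl.compl {n : ℕ} {A : Set X} (h : Dl n A) : Dl n Aᶜ := ⟨h.2, by rw [compl_compl]; exact h.1⟩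

theorem Dl.succ {n : ℕ} {A : Set X} (h : Dl n A) : Dl (n + 1) A :=
  ⟨⟨fun _ => Aᶜ, fun _ => h.2, by simp [Set.iUnion_const]⟩,
    ⟨fun _ => A, fun _ => h.1, by simp [Set.iUnion_const]⟩⟩

theorem Dl.mono {n m : ℕ} (hnm : n ≤ m) {A : Set X} (h : Dl n A) : Dl m A := by
  induction hnm with
  | refl => exact h
  | step _ ih => exact ih.succ

theorem sg_union_inter (n : ℕ) : (∀ A B : Set X, Sg n A → Sg n B → Sg n (A ∪ B)) ∧
    ∀ A B : Set X, Sg n A → Sg n B → Sg n (A ∩ B) := by
  induction n with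
  | zero => exact ⟨fun A B hA hB => IsOpen.union hA hB, fun A B hA hB => IsOpen.inter hA hB⟩
  | succ n ih =>
    constructor
    · rintro A B ⟨C, hC, rfl⟩ ⟨D, hD, rfl⟩
      refine ⟨fun i => Sum.elim C D (Equiv.natSumNatEquivNat.symm i), fun i => ?_, ?_⟩
      · change Sg n (Sum.elim C D (Equiv.natSumNatEquivNat.symm i))
        rcases Equiv.natSumNatEquivNat.symm i with j | j
        · exact hC j
        · exact hD j
      · ext x
        simp only [Set.mem_union, Set.mem_iUnion]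
        constructor
        · rintro (⟨j, hj⟩ | ⟨j, hj⟩)
          · refine ⟨Equiv.natSumNatEquivNat (Sum.inl j), ?_⟩
            rw [Equiv.symm_apply_apply]
            exact hj
          · refine ⟨Equiv.natSumNatEquivNat (Sum.inr j), ?_⟩
            rw [Equiv.symm_apply_apply]
            exact hj
        · rintro ⟨i, hi⟩
          rcases h : Equiv.natSumNatEquivNat.symm i with j | j
          · rw [h] at hi
            exact Or.inl ⟨j, hi⟩
          · rw [h] at hi
            exact Or.inr ⟨j, hi⟩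
    · rintro A B ⟨C, hC, rfl⟩ ⟨D, hD, rfl⟩
      refine ⟨fun i => C (Nat.unpair i).1 ∪ D (Nat.unpair i).2, fun i => ih.1 _ _ (hC _) (hD _), ?_⟩
      ext x
      simp only [Set.mem_inter_iff, Set.mem_iUnion, Set.compl_union]
      constructor
      · rintro ⟨⟨j, hj⟩, ⟨k, hk⟩⟩
        refine ⟨Nat.pair j k, ?_⟩
        rw [Nat.unpair_pair]
        exact ⟨hj, hk⟩
      · rintro ⟨i, hi, hi'⟩
        exact ⟨⟨_, hi⟩, ⟨_, hi'⟩⟩

theorem Dl.union {n : ℕ} {A B : Set X} (hA : Dl n A) (hB : Dl n B) : Dl n (A ∪ B) :=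
  ⟨(sg_union_inter n).1 _ _ hA.1 hB.1, by
    rw [Set.compl_union]
    exact (sg_union_inter n).2 _ _ hA.2 hB.2⟩

theorem Dl.inter {n : ℕ} {A B : Set X} (hA : Dl n A) (hB : Dl n B) : Dl n (A ∩ B) :=
  ⟨(sg_union_inter n).2 _ _ hA.1 hB.1, by
    rw [Set.compl_inter]
    exact (sg_union_inter n).1 _ _ hA.2 hB.2⟩

theorem Dl.iInter {n : ℕ} {A : ℕ → Set X} (hA : ∀ i, Dl n (A i)) : Dl (n + 2) (⋂ i, A i) := by
  have h1 : Sg (n + 1) (⋂ i, A i)ᶜ := ⟨A, fun i => (hA i).1, by rw [Set.compl_iInter]⟩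
  refine ⟨⟨fun _ => (⋂ i, A i)ᶜ, fun _ => h1, by simp [Set.iUnion_const]⟩, ?_⟩
  exact ⟨A, fun i => (hA i).succ.1, by rw [Set.compl_iInter]⟩

theorem dl_clopen {A : Set X} (h : IsClopen A) : Dl 0 A := ⟨h.isOpen, h.compl.isOpen⟩

theorem dl_const (n : ℕ) (p : Prop) : Dl n {_x : X | p} := by
  refine Dl.mono (Nat.zero_le n) (dl_clopen ?_)
  by_cases h : p
  · simp [h, isClopen_univ]
  · simp [h, isClopen_empty]

/-- Being of a finite level, together with the complement. -/
def Fl (A : Set X) : Prop := ∃ n, Dl n A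

theorem Fl.compl {A : Set X} (h : Fl A) : Fl Aᶜ := ⟨_, h.choose_spec.compl⟩

theorem Fl.union {A B : Set X} (hA : Fl A) (hB : Fl B) : Fl (A ∪ B) := by
  obtain ⟨n, hn⟩ := hA
  obtain ⟨m, hm⟩ := hB
  exact ⟨max n m, (hn.mono (le_max_left _ _)).union (hm.mono (le_max_right _ _))⟩

theorem Fl.inter {A B : Set X} (hA : Fl A) (hB : Fl B) : Fl (A ∩ B) := by
  obtain ⟨n, hn⟩ := hA
  obtain ⟨m, hm⟩ := hB
  exact ⟨max n m, (hn.mono (le_max_left _ _)).inter (hm.mono (le_max_right _ _))⟩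

theorem Fl.sg {A : Set X} (h : Fl A) : ∃ n, Sg n A := ⟨_, h.choose_spec.1⟩

theorem piW2_of {I J K : Type} [Countable I] [Countable J] [Countable K] [Nonempty I] [Nonempty J]
    [Nonempty K] (B : I → J → K → Set X) (h : ∀ i j k, ∃ n, Sg n (B i j k)) :
    PiW2 (⋂ i, ⋃ j, ⋂ k, B i j k) := by
  obtain ⟨e, he⟩ := exists_surjective_nat I
  obtain ⟨f, hf⟩ := exists_surjective_nat J
  obtain ⟨g, hg⟩ := exists_surjective_nat K
  refine ⟨fun i j k => B (e i) (f j) (g k), fun i j k => h _ _ _, ?_⟩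
  ext x
  simp only [Set.mem_iInter, Set.mem_iUnion]
  constructor
  · intro h1 i
    obtain ⟨j, hj⟩ := h1 (e i)
    obtain ⟨j', rfl⟩ := hf j
    exact ⟨j', fun k => hj (g k)⟩
  · intro h1 i
    obtain ⟨i', rfl⟩ := he i
    obtain ⟨j, hj⟩ := h1 i'
    refine ⟨f j, fun k => ?_⟩
    obtain ⟨k', rfl⟩ := hg k
    exact hj k'

theorem PiW2.inter {A B : Set X} (hA : PiW2 A) (hB : PiW2 B) : PiW2 (A ∩ B) := by
  obtain ⟨C, hC, rfl⟩ := hA
  obtain ⟨D, hD, rfl⟩ := hB
  have h := piW2_of (I := ℕ ⊕ ℕ) (J := ℕ) (K := ℕ) (X := X)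
    (fun i j k => Sum.elim (fun i => C i j k) (fun i => D i j k) i) (by
      intro i j k
      rcases i with i | i
      · exact hC i j k
      · exact hD i j k)
  convert h using 1
  ext x
  simp only [Set.mem_inter_iff, Set.mem_iInter, Set.mem_iUnion, Sum.forall, Sum.elim_inl,
    Sum.elim_inr]

theorem piW2_iInter {I : Type} [Countable I] [Nonempty I] (A : I → Set X) (h : ∀ i, Fl (A i)) :
    PiW2 (⋂ i, A i) := by
  have h1 := piW2_of (I := I) (J := Unit) (K := Unit) (fun i _ _ => A i) fun i _ _ => (h i).sg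
  convert h1 using 1
  ext x
  simp

theorem piW2_fl {A : Set X} (h : Fl A) : PiW2 A := by
  have h1 := piW2_iInter (I := Unit) (fun _ => A) fun _ => h
  rwa [Set.iInter_const] at h1

end levels

theorem dl_rel (a b : ℕ) : Dl 0 {R : Code | R a b = true} := by
  refine dl_clopen ?_
  have h1 : Continuous fun R : Code => R a b := (continuous_apply b).comp (continuous_apply a)
  exact (isClopen_discrete {true}).preimage h1

theorem fl_rel (a b : ℕ) : Fl {R : Code | R a b = true} := ⟨0, dl_rel a b⟩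

theorem dl_bounded {α : Type} {n : ℕ} (φ : Language.order.BoundedFormula α n) :
    ∃ m, ∀ (v : α → ℕ) (xs : Fin n → ℕ),
      Dl m {R : Code | @Language.BoundedFormula.Realize _ ℕ (strOf R) α n φ v xs} := by
  induction φ with
  | falsum =>
    refine ⟨0, fun v xs => ?_⟩
    simp only [Language.BoundedFormula.Realize]
    exact dl_const 0 False
  | equal t₁ t₂ =>
    refine ⟨0, fun v xs => ?_⟩
    obtain ⟨i, rfl⟩ := term_eq t₁
    obtain ⟨j, rfl⟩ := term_eq t₂
    simp only [Language.BoundedFormula.Realize, Language.Term.realize_var]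
    exact dl_const 0 _
  | rel r ts =>
    refine ⟨0, fun v xs => ?_⟩
    cases r
    obtain ⟨i, hi⟩ := term_eq (ts 0)
    obtain ⟨j, hj⟩ := term_eq (ts 1)
    have : {R : Code | @Language.BoundedFormula.Realize _ ℕ (strOf R) α _
        (Language.BoundedFormula.rel Language.orderRel.le ts) v xs} =
        {R : Code | R (Sum.elim v xs i) (Sum.elim v xs j) = true} := by
      ext R
      have h1 : @Language.BoundedFormula.Realize _ ℕ (strOf R) α _
          (Language.BoundedFormula.rel Language.orderRel.le ts) v xs ↔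
          R (@Language.Term.realize _ ℕ (strOf R) _ (Sum.elim v xs) (ts 0))
            (@Language.Term.realize _ ℕ (strOf R) _ (Sum.elim v xs) (ts 1)) = true := relMap_iff R _
      rw [hi, hj] at h1
      exact h1
    rw [this]
    exact dl_rel _ _
  | imp f₁ f₂ ih₁ ih₂ =>
    obtain ⟨m₁, h₁⟩ := ih₁
    obtain ⟨m₂, h₂⟩ := ih₂
    refine ⟨max m₁ m₂, fun v xs => ?_⟩
    have : {R : Code | @Language.BoundedFormula.Realize _ ℕ (strOf R) α _ (f₁.imp f₂) v xs} =
        {R : Code | @Language.BoundedFormula.Realize _ ℕ (strOf R) α _ f₁ v xs}ᶜ ∪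
        {R : Code | @Language.BoundedFormula.Realize _ ℕ (strOf R) α _ f₂ v xs} := by
      ext R
      simp only [Set.mem_ofPred_eq, Language.BoundedFormula.Realize, Set.mem_union,
        Set.mem_compl_iff]
      tauto
    rw [this]
    exact ((h₁ v xs).mono (le_max_left _ _)).compl.union ((h₂ v xs).mono (le_max_right _ _))
  | all f ih =>
    obtain ⟨m, h⟩ := ih
    refine ⟨m + 2, fun v xs => ?_⟩
    have : {R : Code | @Language.BoundedFormula.Realize _ ℕ (strOf R) α _ f.all v xs} =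
        ⋂ x : ℕ, {R : Code | @Language.BoundedFormula.Realize _ ℕ (strOf R) α _ f v
          (Fin.snoc xs x)} := by
      ext R
      simp only [Set.mem_ofPred_eq, Language.BoundedFormula.Realize, Set.mem_iInter]
    rw [this]
    exact Dl.iInter fun x => h v _

theorem fl_formula {n : ℕ} (φ : Language.order.Formula (Fin n)) (v : Fin n → ℕ) :
    Fl {R : Code | @Language.Formula.Realize _ ℕ (strOf R) _ φ v} := by
  obtain ⟨m, h⟩ := dl_bounded φ
  exact ⟨m, h v _⟩

/-- The `k`-th formula has the same truth value at `a` and `b`. -/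
def Agr {n : ℕ} (a b : Fin n → ℕ) (k : ℕ) : Set Code :=
  {R : Code | @Language.Formula.Realize _ ℕ (strOf R) _ (en n k) a ↔
    @Language.Formula.Realize _ ℕ (strOf R) _ (en n k) b}

theorem fl_agr {n : ℕ} (a b : Fin n → ℕ) (k : ℕ) : Fl (Agr a b k) := by
  have : Agr a b k =
      ({R : Code | @Language.Formula.Realize _ ℕ (strOf R) _ (en n k) a}ᶜ ∪
        {R : Code | @Language.Formula.Realize _ ℕ (strOf R) _ (en n k) b}) ∩
      ({R : Code | @Language.Formula.Realize _ ℕ (strOf R) _ (en n k) b}ᶜ ∪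
        {R : Code | @Language.Formula.Realize _ ℕ (strOf R) _ (en n k) a}) := by
    ext R
    simp only [Agr, Set.mem_ofPred_eq, Set.mem_union, Set.mem_inter_iff, Set.mem_compl_iff]
    tauto
  rw [this]
  have h1 := fl_formula (en n k) a
  have h2 := fl_formula (en n k) b
  exact (h1.compl.union h2).inter (h2.compl.union h1)

theorem sameType_agr {n : ℕ} (a b : Fin n → ℕ) (R : Code) :
    @SameType (OfCode R) (OfCode R) _ _ n a b ↔ ∀ k, R ∈ Agr a b k := by
  constructor
  · intro h k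
    exact h (en n k)
  · intro h φ
    obtain ⟨k, rfl⟩ := en_surj n φ
    exact h k

theorem piW2_PO : PiW2 {R : Code | IsPO R} := by
  have h : {R : Code | IsPO R} = ⋂ t : ℕ × ℕ × ℕ, {R : Code | R t.1 t.1 = true} ∩
      (({R : Code | R t.1 t.2.1 = true}ᶜ ∪ ({R : Code | R t.2.1 t.1 = true}ᶜ ∪
        {_R : Code | t.1 = t.2.1})) ∩ ({R : Code | R t.1 t.2.1 = true}ᶜ ∪
        ({R : Code | R t.2.1 t.2.2 = true}ᶜ ∪ {R : Code | R t.1 t.2.2 = true}))) := by
    ext R
    simp only [Set.mem_ofPred_eq, Set.mem_iInter, Set.mem_union, Set.mem_inter_iff,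
      Set.mem_compl_iff, ← imp_iff_not_or, Prod.forall]
    constructor
    · rintro ⟨h1, h2, h3⟩ a b c
      exact ⟨h1 a, h2 a b, h3 a b c⟩
    · intro h
      exact ⟨fun a => (h a a a).1, fun a b => (h a b b).2.1, fun a b c => (h a b c).2.2⟩
  rw [h]
  refine piW2_iInter _ fun t => ?_
  exact (fl_rel _ _).inter (((fl_rel _ _).compl.union ((fl_rel _ _).compl.union
    ⟨0, dl_const 0 _⟩)).inter ((fl_rel _ _).compl.union ((fl_rel _ _).compl.union (fl_rel _ _))))

theorem piW2_homog : PiW2 {R : Code | ElemHomog (OfCode R)} := by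
  have h : {R : Code | ElemHomog (OfCode R)} =
      ⋂ t : (Σ n, (Fin n → ℕ) × (Fin n → ℕ)) × ℕ, ⋃ j : ℕ ⊕ ℕ, ⋂ k : ℕ,
        Sum.elim (fun j => (Agr t.1.2.1 t.1.2.2 j)ᶜ) (fun d =>
          Agr (Fin.cons t.2 t.1.2.1 : Fin (t.1.1 + 1) → ℕ)
            (Fin.cons d t.1.2.2 : Fin (t.1.1 + 1) → ℕ) k) j := by
    ext R
    simp only [Set.mem_ofPred_eq, Set.mem_iInter, Set.mem_iUnion, Prod.forall, Sigma.forall,
      Sum.exists, Sum.elim_inl, Sum.elim_inr, elemHomog_iff]
    constructor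
    · intro h n a b c
      by_cases hab : @SameType (OfCode R) (OfCode R) _ _ n a b
      · obtain ⟨d, hd⟩ := h n a b hab c
        exact Or.inr ⟨d, (sameType_agr _ _ R).mp hd⟩
      · rw [sameType_agr] at hab
        push Not at hab
        obtain ⟨j, hj⟩ := hab
        exact Or.inl ⟨j, fun _ => hj⟩
    · intro h n a b hab c
      rcases h n a b c with ⟨j, hj⟩ | ⟨d, hd⟩
      · exact absurd ((sameType_agr _ _ R).mp hab j) (hj 0)
      · exact ⟨d, (sameType_agr _ _ R).mpr hd⟩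
  rw [h]
  refine piW2_of _ fun t j k => ?_
  rcases j with j | d
  · exact (fl_agr _ _ _).compl.sg
  · exact (fl_agr _ _ _).sg

/-- The class of elementarily homogeneous posets is `Π_(ω+2)`. -/
theorem piW2_EH : PiW2 EH := piW2_PO.inter piW2_homog

theorem piW2_linear : PiW2 {R : Code | ∀ a b : OfCode R, a ≤ b ∨ b ≤ a} := by
  have h : {R : Code | ∀ a b : OfCode R, a ≤ b ∨ b ≤ a} = ⋂ t : ℕ × ℕ,
      ({R : Code | R t.1 t.2 = true} ∪ {R : Code | R t.2 t.1 = true}) := by
    ext R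
    simp only [Set.mem_ofPred_eq, Set.mem_iInter, Set.mem_union, Prod.forall]
    exact Iff.rfl
  rw [h]
  exact piW2_iInter _ fun t => (fl_rel _ _).union (fl_rel _ _)

theorem piW2_height : PiW2 {R : Code | ∀ a b d : OfCode R, a ≤ b → b ≤ d → a = b ∨ b = d} := by
  have h : {R : Code | ∀ a b d : OfCode R, a ≤ b → b ≤ d → a = b ∨ b = d} = ⋂ t : ℕ × ℕ × ℕ,
      ({R : Code | R t.1 t.2.1 = true}ᶜ ∪ ({R : Code | R t.2.1 t.2.2 = true}ᶜ ∪
        {_R : Code | t.1 = t.2.1 ∨ t.2.1 = t.2.2})) := by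
    ext R
    simp only [Set.mem_ofPred_eq, Set.mem_iInter, Set.mem_union, Set.mem_compl_iff,
      ← imp_iff_not_or, Prod.forall]
    exact Iff.rfl
  rw [h]
  exact piW2_iInter _ fun t => (fl_rel _ _).compl.union ((fl_rel _ _).compl.union
    ⟨0, dl_const 0 _⟩)

/-- The elementarily homogeneous linear orders are `Π_(ω+2)`. -/
theorem piW2_EHL : PiW2 {R | R ∈ EH ∧ ∀ a b : OfCode R, a ≤ b ∨ b ≤ a} :=
  piW2_EH.inter piW2_linear

/-- The elementarily homogeneous posets of height at most two are `Π_(ω+2)`. -/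
theorem piW2_EH2 : PiW2 {R | R ∈ EH ∧ ∀ a b d : OfCode R, a ≤ b → b ≤ d → a = b ∨ b = d} :=
  piW2_EH.inter piW2_height

end Pool.Agent.Work.MP_f1d084_lc
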