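import Mathlib
import Pool.Agent.Work.MP_f1d084_lc.BackForth
import Pool.Agent.Work.MP_f1d084_lc.Lin1
import Pool.Agent.Work.MP_f1d084_lc.M.Up

set_option autoImplicit false

namespace Pool.Agent.Work.MP_f1d084_lc.M

/-! ### The linear orders -/

/-- The order relation of the block with parameter `n`: the elements of `ℕ` in the order
`0 < 1 < ... < n < ... < n + 3 < n + 2 < n + 1`, which has type `(n + 1) + ω*`. -/
def blk (n i j : ℕ) : Prop := (i ≤ j ∧ j ≤ n) ∨ (i ≤ n ∧ n < j) ∨ (n < j ∧ j ≤ i)

instance (n i j : ℕ) : Decidable (blk n i j) := inferInstanceAs (Decidable (_ ∨ _ ∨ _))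

/-- Every point `σ` of the set of all finite lists of rationals (in the lexicographic order,
in which initial segments come first) is replaced by the block with parameter `N σ`. -/
@[ext] structure LL (N : List ℚ → ℕ) : Type where
  /-- the node -/
  nd : List ℚ
  /-- the position in the block -/
  ps : ℕ

variable {N : List ℚ → ℕ}

/-- The key which defines the order. -/
noncomputable def lkey (a : LL N) : List ℚ ×ₗ (ℕ ×ₗ ℤ) :=
  toLex (a.nd, toLex (if a.ps ≤ N a.nd then (0, (a.ps : ℤ)) else (1, -(a.ps : ℤ))))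

theorem lkey_injective : Function.Injective (lkey (N := N)) := by
  rintro ⟨σ, i⟩ ⟨τ, j⟩ h
  simp only [lkey] at h
  have h' := toLex.injective h
  rw [Prod.mk.injEq] at h'
  obtain ⟨rfl, h2⟩ := h'
  have h3 := toLex.injective h2
  by_cases h4 : i ≤ N σ <;> by_cases h5 : j ≤ N σ
  · rw [if_pos h4, if_pos h5, Prod.mk.injEq] at h3
    have : i = j := by exact_mod_cast h3.2
    rw [this]
  · rw [if_pos h4, if_neg h5, Prod.mk.injEq] at h3
    exact absurd h3.1 (by norm_num)
  · rw [if_neg h4, if_pos h5, Prod.mk.injEq] at h3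
    exact absurd h3.1 (by norm_num)
  · rw [if_neg h4, if_neg h5, Prod.mk.injEq] at h3
    have : i = j := by
      have := h3.2
      omega
    rw [this]

noncomputable instance (N : List ℚ → ℕ) : LinearOrder (LL N) :=
  LinearOrder.lift' lkey lkey_injective

theorem ll_le_iff (a b : LL N) : a ≤ b ↔ a.nd < b.nd ∨ (a.nd = b.nd ∧ blk (N a.nd) a.ps b.ps) := by
  change lkey a ≤ lkey b ↔ _
  unfold lkey
  rw [Prod.Lex.toLex_le_toLex]
  refine or_congr Iff.rfl (and_congr_right fun h => ?_)
  have h' : a.nd = b.nd := h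
  simp only
  rw [h']
  unfold blk
  by_cases h4 : a.ps ≤ N b.nd <;> by_cases h5 : b.ps ≤ N b.nd
  · rw [if_pos h4, if_pos h5, Prod.Lex.toLex_le_toLex]
    simp only [lt_irrefl, false_or, true_and, Nat.cast_le]
    omega
  · rw [if_pos h4, if_neg h5, Prod.Lex.toLex_le_toLex]
    simp only [Nat.lt_one_iff, true_or, true_iff]
    omega
  · rw [if_neg h4, if_pos h5, Prod.Lex.toLex_le_toLex]
    simp only [Nat.not_lt_zero, false_or, one_ne_zero, false_and, false_iff]
    omega
  · rw [if_neg h4, if_neg h5, Prod.Lex.toLex_le_toLex]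
    simp only [lt_irrefl, false_or, true_and]
    omega

theorem ll_lt_iff (a b : LL N) :
    a < b ↔ a.nd < b.nd ∨ (a.nd = b.nd ∧ blk (N a.nd) a.ps b.ps ∧ a.ps ≠ b.ps) := by
  rw [lt_iff_le_and_ne, ll_le_iff]
  constructor
  · rintro ⟨h | ⟨h1, h2⟩, h3⟩
    · exact Or.inl h
    · exact Or.inr ⟨h1, h2, fun h4 => h3 (LL.ext h1 h4)⟩
  · rintro (h | ⟨h1, h2, h3⟩)
    · exact ⟨Or.inl h, fun h4 => absurd (congrArg LL.nd h4) h.ne⟩
    · exact ⟨Or.inr ⟨h1, h2⟩, fun h4 => h3 (congrArg LL.ps h4)⟩

instance (N : List ℚ → ℕ) : Countable (LL N) := by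
  have h : Function.Injective (fun a : LL N => (a.nd, a.ps)) := by
    rintro ⟨σ, i⟩ ⟨τ, j⟩ h
    simpa using h
  exact h.countable

instance (N : List ℚ → ℕ) : Nonempty (LL N) := ⟨⟨[], 0⟩⟩

/-! ### First-order properties -/

/-- `u` is the first element of a block with parameter `n`. -/
def bf (n : ℕ) (P : Type) [LE P] (u : P) : Prop := pre 0 P u ∧ suc n P u

/-- `u` is the first element of the block of a node of depth `d` (when the block of `σ` has the
parameter `7 * σ.length + c` with `c < 7`). -/
def node (d : ℕ) (P : Type) [LE P] (u : P) : Prop := ∃ c : Fin 7, bf (7 * d + c) P u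

/-- `z` is the first element of the block of the initial segment of length `d` of the node
of `y`. -/
def anc (d : ℕ) (P : Type) [LE P] (z y : P) : Prop :=
  node d P z ∧ z ≤ y ∧ ∀ w : P, node d P w → w ≤ y → w ≤ z

/-- `Q` is a first-order definable property of the nodes of depth `d` of `LL N`. -/
def Dfn (N : List ℚ → ℕ) (d : ℕ) (Q : List ℚ → Prop) : Prop :=
  ∃ Φ : ∀ (P : Type) [LE P], (Fin 1 → P) → Prop, IsFO Φ ∧
    ∀ σ : List ℚ, σ.length = d → (Φ (LL N) (fun _ => ⟨σ, 0⟩) ↔ Q σ)

/-- The nodes `σ`, `τ` have the same length and the same definable properties. -/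
def Eqv (N : List ℚ → ℕ) (σ τ : List ℚ) : Prop :=
  σ.length = τ.length ∧ ∀ Q, Dfn N σ.length Q → (Q σ ↔ Q τ)

/-! ### Finite partial isomorphisms of trees -/

/-- `Z` is a partial isomorphism of the tree of finite lists of rationals, given by pairs: it
preserves lengths, the length of the common initial segments and the order, and corresponding
initial segments are in the relation `R`. -/
structure Good (R : List ℚ → List ℚ → Prop) (Z : Set (List ℚ × List ℚ)) : Prop where
  len : ∀ x ∈ Z, x.1.length = x.2.length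
  rel : ∀ x ∈ Z, ∀ k, R (x.1.take k) (x.2.take k)
  tak : ∀ x ∈ Z, ∀ y ∈ Z, ∀ k, (x.1.take k = y.1.take k ↔ x.2.take k = y.2.take k)
  ord : ∀ x ∈ Z, ∀ y ∈ Z, (x.1 < y.1 ↔ x.2 < y.2)

/-- The pairs of nodes of two tuples, and the root. -/
def zp {n : ℕ} (a b : Fin n → LL N) : Set (List ℚ × List ℚ) :=
  insert ([], []) (Set.range fun i => ((a i).nd, (b i).nd))

/-! ### Codes of Borel sets of finite rank, and the states -/

variable {X : Type} [TopologicalSpace X]

/-- Codes of sets of finite rank `n`, starting with the clopen sets for `n = 0`. -/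
def BC (X : Type) [TopologicalSpace X] : ℕ → Type
  | 0 => {s : Set X // IsClopen s}
  | n + 1 => ℕ → BC X n

/-- The set with a given code: `β` with index `n + 1` is a code of the union of the complements of
the sets with the codes `β i`. -/
def den : (n : ℕ) → BC X n → Set X
  | 0, β => β.1
  | n + 1, β => ⋃ i, (den n (β i))ᶜ

/-- Codes of the whole space and of the empty set. -/
def cst : (n : ℕ) → Bool → BC X n
  | 0, b => if b = true then ⟨Set.univ, isClopen_univ⟩ else ⟨∅, isClopen_empty⟩
  | n + 1, b => fun _ => cst n (!b)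

/-- The sequence of codes of constant sets given by a finite sequence of bits, followed by
zeros. -/
def pat (l : List Bool) : (k : ℕ) → BC X k := fun k => cst k (l.getD k false)

/-- The sequence of codes of the whole space. -/
def ones : (k : ℕ) → BC X k := fun k => cst k true

/-- The states of the nodes. -/
inductive St (X : Type) [TopologicalSpace X] : Type
  | sp : ℕ → St X
  | U : ℕ → Bool → St X
  | E : ((k : ℕ) → BC X k) → St X
  | T : (k : ℕ) → BC X k → St X
  | dead : St X

/-- A surjection from `ℕ` onto the finite sequences of bits. -/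
def dec (n : ℕ) : List Bool := (Encodable.decode (α := List Bool) n).getD []

/-- The state of the children of colour `i` of a node with a given state. -/
def ch (S : ℕ → ℕ → (k : ℕ) → BC X k) : St X → ℕ → St X
  | .sp c, i => if i = 0 then .sp (c + 1) else .U c (decide (i = 1))
  | .U c b, i => if i % 3 = 0 then .E (pat (dec (i / 3))) else
      if i % 3 = 1 then .E (S c (i / 3)) else if b = true then .E ones else .E (pat [])
  | .E s, i => .T i (s i)
  | .T 0 _, _ => .dead
  | .T (k + 1) β, i => if i = 0 then .T k (cst k true) else .T k (β (i - 1))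
  | .dead, _ => .dead

open Classical in
/-- The colour of a node with a given state. -/
noncomputable def clr (x : X) : St X → ℕ
  | .sp _ => 5
  | .U _ _ => 4
  | .E _ => 3
  | .T 0 β => if x ∈ β.1 then 1 else 0
  | .T (_ + 1) _ => 2
  | .dead => 6

/-- The state reached from `s` along a list of rationals. -/
noncomputable def run (S : ℕ → ℕ → (k : ℕ) → BC X k) : St X → List ℚ → St X
  | s, [] => s
  | s, q :: σ => run S (ch S s (col q)) σ

/-- The state of a node. -/
noncomputable def st (S : ℕ → ℕ → (k : ℕ) → BC X k) (σ : List ℚ) : St X := run S (.sp 0) σ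

/-- The parameters of the blocks. -/
noncomputable def lab (S : ℕ → ℕ → (k : ℕ) → BC X k) (x : X) (σ : List ℚ) : ℕ :=
  7 * σ.length + clr x (st S σ)

/-- Equality of the kinds of two states, when the kinds of `U c true`, `U c false` agree. -/
def RA (x : X) : St X → St X → Prop
  | .sp c, .sp c' => c = c'
  | .U c _, .U c' _ => c = c'
  | .E s, .E s' => ∀ k, (x ∈ den k (s k) ↔ x ∈ den k (s' k))
  | .T k β, .T k' β' => k = k' ∧ (x ∈ den k β ↔ x ∈ den k' β')
  | .dead, .dead => True
  | _, _ => False

/-- Equivalence of the states up to `r` moves. -/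
def FR (x : X) (r : ℕ) : St X → St X → Prop
  | .sp c, .sp c' => c = c'
  | .U c _, .U c' _ => c = c'
  | .E s, .E s' => ∀ k, k ≤ r → (x ∈ den k (s k) ↔ x ∈ den k (s' k))
  | .T k β, .T k' β' => k = k' ∧ ((x ∈ den k β ↔ x ∈ den k' β') ∨ r < k)
  | .dead, .dead => True
  | _, _ => False

/-- The simulation between the states which is used for a path of arbitrary length. -/
def WR (x : X) (r : ℕ) : St X → St X → Prop
  | .sp c, .sp c' => c = c'
  | .U c _, .U c' _ => c = c'
  | .E s, .E s' => ∀ k, k ≤ r + 1 → (x ∈ den k (s k) ↔ x ∈ den k (s' k))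
  | .T k β, .T k' β' => k = k' ∧ ((x ∈ den k β ↔ x ∈ den k' β') ∨
      (x ∉ den k β ∧ x ∈ den k' β' ∧ r < k) ∨ (x ∈ den k β ∧ x ∉ den k' β' ∧ r + 1 < k))
  | .dead, .dead => True
  | _, _ => False

end Pool.Agent.Work.MP_f1d084_lc.M
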