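import Mathlib

set_option autoImplicit false

/-! MODULE Lst (S-M). The lexicographic order of `List ℚ` (Mathlib's `LinearOrder (List ℚ)`,
`List.Lex`; useful: `List.cons_lt_cons_iff`, `List.nil_lt_cons`, `List.not_lt_nil`,
`List.append_left_lt`-like facts by induction on the common part).

PROOFS. `list_lt_iff`: induction on `σ`, cases on `τ`, with `cons_lt_cons_iff`
(`a :: σ < b :: τ ↔ a < b ∨ a = b ∧ σ < τ`).
All the other ones follow from `list_lt_iff`:
* `list_dense`: if `τ = σ ++ q :: ρ` take `σ ++ [q - 1]`; if `σ = ρ ++ a :: σ'`,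
  `τ = ρ ++ b :: τ'` with `a < b` take `ρ ++ [c]` with `a < c < b`.
* `le_take_of_lt`: if `σ = w ++ q :: ρ` then `σ.take w.length = w`; if `w = ρ ++ a :: w'`,
  `σ = ρ ++ b :: σ'` then `σ.take w.length = ρ ++ b :: σ'.take w'.length`, so `w` is smaller.
* `exists_between_of_length`: the first case is impossible; in the second case take
  `ρ ++ c :: w'` with `a < c < b`.
* `take_le_self`: `σ = σ.take d ++ σ.drop d`, the second list is empty or not.
* `lt_append_iff`: cancel the common initial part. -/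

namespace Pool.Agent.Work.MP_f1d084_lc.M

theorem list_lt_iff (σ τ : List ℚ) : σ < τ ↔ (∃ q ρ, τ = σ ++ q :: ρ) ∨
    ∃ ρ a σ' b τ', a < b ∧ σ = ρ ++ a :: σ' ∧ τ = ρ ++ b :: τ' := by
  induction σ generalizing τ with
  | nil =>
    cases τ with
    | nil =>
      constructor
      · intro h
        exact absurd h (lt_irrefl _)
      · rintro (⟨q, ρ, h⟩ | ⟨ρ, a, σ', b, τ', _, h, _⟩)
        · simp at h
        · simp at h
    | cons b τ =>
      constructor
      · intro _
        exact Or.inl ⟨b, τ, by simp⟩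
      · intro _
        exact List.nil_lt_cons b τ
  | cons a σ ih =>
    cases τ with
    | nil =>
      constructor
      · intro h
        exact absurd h (List.not_lt_nil _)
      · rintro (⟨q, ρ, h⟩ | ⟨ρ, a', σ', b, τ', _, _, h⟩)
        · simp at h
        · simp at h
    | cons b τ =>
      rw [List.cons_lt_cons_iff, ih]
      constructor
      · rintro (h | ⟨rfl, (⟨q, ρ, h⟩ | ⟨ρ, c, σ', d, τ', hcd, h1, h2⟩)⟩)
        · exact Or.inr ⟨[], a, σ, b, τ, h, rfl, rfl⟩
        · exact Or.inl ⟨q, ρ, by rw [h]; rfl⟩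
        · exact Or.inr ⟨a :: ρ, c, σ', d, τ', hcd, by rw [h1]; rfl, by rw [h2]; rfl⟩
      · rintro (⟨q, ρ, h⟩ | ⟨ρ, c, σ', d, τ', hcd, h1, h2⟩)
        · rw [List.cons_append, List.cons_eq_cons] at h
          exact Or.inr ⟨h.1.symm, Or.inl ⟨q, ρ, h.2⟩⟩
        · cases ρ with
          | nil =>
            rw [List.nil_append, List.cons_eq_cons] at h1 h2
            left
            rw [h1.1, h2.1]
            exact hcd
          | cons e ρ =>
            rw [List.cons_append, List.cons_eq_cons] at h1 h2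
            exact Or.inr ⟨h1.1.trans h2.1.symm, Or.inr ⟨ρ, c, σ', d, τ', hcd, h1.2, h2.2⟩⟩

theorem lt_append_iff (ρ σ τ : List ℚ) : ρ ++ σ < ρ ++ τ ↔ σ < τ := by
  induction ρ with
  | nil => exact Iff.rfl
  | cons a ρ ih =>
    rw [List.cons_append, List.cons_append, List.cons_lt_cons_iff, ih]
    constructor
    · rintro (h | ⟨_, h⟩)
      · exact absurd h (lt_irrefl _)
      · exact h
    · intro h
      exact Or.inr ⟨rfl, h⟩

theorem list_dense (σ τ : List ℚ) (h : σ < τ) : ∃ ρ, σ < ρ ∧ ρ < τ := by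
  rcases (list_lt_iff σ τ).1 h with ⟨q, ρ, h⟩ | ⟨ρ, a, σ', b, τ', hab, h1, h2⟩
  · refine ⟨σ ++ [q - 1], (list_lt_iff _ _).2 (Or.inl ⟨q - 1, [], rfl⟩), ?_⟩
    exact (list_lt_iff _ _).2 (Or.inr ⟨σ, q - 1, [], q, ρ, by linarith, rfl, h⟩)
  · obtain ⟨c, hac, hcb⟩ := exists_between hab
    exact ⟨ρ ++ [c], (list_lt_iff _ _).2 (Or.inr ⟨ρ, a, σ', c, [], hac, h1, rfl⟩),
      (list_lt_iff _ _).2 (Or.inr ⟨ρ, c, [], b, τ', hcb, rfl, h2⟩)⟩

theorem le_take_of_lt (σ w : List ℚ) (h : w < σ) (hl : w.length ≤ σ.length) :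
    w ≤ σ.take w.length := by
  rcases (list_lt_iff w σ).1 h with ⟨q, ρ, h⟩ | ⟨ρ, a, w', b, σ', hab, h1, h2⟩
  · rw [h, List.take_left']
    rfl
  · apply le_of_lt
    rw [list_lt_iff]
    right
    refine ⟨ρ, a, w', b, σ'.take w'.length, hab, h1, ?_⟩
    rw [h1, h2, List.take_append, List.length_append, List.length_cons]
    have e1 : List.take (ρ.length + (w'.length + 1)) ρ = ρ :=
      List.take_of_length_le (by omega)
    have e2 : ρ.length + (w'.length + 1) - ρ.length = w'.length + 1 := by omega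
    rw [e1, e2, List.take_succ_cons]

theorem exists_between_of_length (σ w : List ℚ) (h : w < σ) (hl : σ.length < w.length) :
    ∃ w' : List ℚ, w'.length = w.length ∧ w < w' ∧ w' < σ := by
  rcases (list_lt_iff w σ).1 h with ⟨q, ρ, h⟩ | ⟨ρ, a, w', b, σ', hab, h1, h2⟩
  · exfalso
    rw [h, List.length_append, List.length_cons] at hl
    omega
  · obtain ⟨c, hac, hcb⟩ := exists_between hab
    refine ⟨ρ ++ c :: w', ?_, ?_, ?_⟩
    · rw [h1]
      simp
    · exact (list_lt_iff _ _).2 (Or.inr ⟨ρ, a, w', c, w', hac, h1, rfl⟩)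
    · exact (list_lt_iff _ _).2 (Or.inr ⟨ρ, c, w', b, σ', hcb, rfl, h2⟩)

theorem take_le_self (σ : List ℚ) (d : ℕ) : σ.take d ≤ σ := by
  cases hd : σ.drop d with
  | nil =>
    have h := List.take_append_drop d σ
    rw [hd, List.append_nil] at h
    exact le_of_eq h
  | cons q ρ =>
    apply le_of_lt
    rw [list_lt_iff]
    left
    refine ⟨q, ρ, ?_⟩
    rw [← hd, List.take_append_drop]

end Pool.Agent.Work.MP_f1d084_lc.M
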