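import Mathlib
import Pool.Agent.Work.MP_f1d084_lc.M.Defs
import Pool.Agent.Work.MP_f1d084_lc.M.Lst

set_option autoImplicit false

/-! MODULE Ext (M-L). Extension of finite partial isomorphisms of the tree `List ℚ`.

PROOF. Let `Z` be finite and good for `R`, with the pair of roots, and let `σ` be given.
Among the numbers `k ≤ σ.length` such that `σ.take k = x.1.take k` and `k ≤ x.1.length` for some
`x ∈ Z` (e.g. `k = 0`, for `x` the pair of roots) take the largest `k` and a corresponding
`x ∈ Z`, `x = (σ₁, τ₁)`.
(a) `k = σ.length`: `σ = σ₁.take k`, put `τ = τ₁.take k`. All conditions for the new pair follow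
from those of the pair `x` (initial segments of `σ` are initial segments of `σ₁`). For `ord`: for a
pair `y = (σ₂, τ₂) ∈ Z`: `σ₁.take k < σ₂` iff ... see below (`order from takes`).
(b) `k < σ.length`: `σ = σ.take k ++ q :: ρ`. Let `lo` be the set of the entries `x'.1[k]` with
`x' ∈ Z`, `k < x'.1.length`, `x'.1.take k = σ.take k` and `x'.1[k] < q`, mapped to `x'.2[k]`; `hi`
the same for `x'.1[k] > q` (`x'.1[k] = q` is impossible, `k` is maximal). For `x' ∈ lo`, `y' ∈ hi`
we have `x'.2[k] < y'.2[k]`: `x'.1 < y'.1` (same initial part, then `x'.1[k] < q < y'.1[k]`), so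
`x'.2 < y'.2`, and these have the same initial part of length `k` by `tak` but not of length
`k + 1`, so the entries at `k` are `<`. The pair `(σ₁.take k, τ₁.take k)` is in `R`, so the
hypothesis `h2` gives `q'`, `ρ'`; put `τ = τ₁.take k ++ q' :: ρ'`.
`len`, `rel` are clear (for `m ≤ k` from `x`, for `m = k + 1 + j` from `h2`).
`tak` for `y ∈ Z`: for `m ≤ k` use `x`: `σ.take m = (σ₁).take m`. For `m > k`: both sides are false:
`σ.take m = y.1.take m` would give a larger `k` (`y.1` has at least `k + 1` elements, since
`σ.take m` has); `τ.take m = y.2.take m` gives `y.2.take k = τ₁.take k`, so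
`y.1.take k = σ₁.take k = σ.take k`, `k < y.2.length = y.1.length` and `y.2[k] = q'`, but
`y.2[k]` is in `lo` or `hi`, which contradicts `lo < q' < hi`.
`ord`: order from takes: for lists `s ≠ t` with common initial part of length exactly `m`: `s < t`
iff `m = s.length` or (`m < s.length`, `m < t.length` and `s[m] < t[m]`). By `tak` the common
initial parts of `σ`, `y.1` and of `τ`, `y.2` have the same length `m ≤ k`. If `m < k` then the
comparison of `σ` with `y.1` is the same as that of `σ₁` with `y.1`, and the comparison of
`τ` with `y.2` is that of `τ₁` with `y.2`: use `ord` for `x`, `y`. If `m = k`: `y.1` has length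
`k` (then `y.1 < σ` and `y.2 < τ`), or `σ` has length `k` (case (a)), or the entries at `k` are
compared: `lo`, `hi`.
It may be convenient to replace the elements by a statement proved by induction on the first list:
another possible proof is by recursion on `σ`, for all `R`, `Z` simultaneously, passing to the cone
above the first entry `q` (the set of all `(s, t)` with `(q :: s, q' :: t) ∈ Z`). Choose what you
like, only the statement is fixed.
`good_symm`: immediate. `good_insert`: the pair of roots can always be added. -/

namespace Pool.Agent.Work.MP_f1d084_lc.M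

variable {R R' : List ℚ → List ℚ → Prop} {Z : Set (List ℚ × List ℚ)}

private theorem ins (hg : Good R' Z) {σ τ : List ℚ} (hl : σ.length = τ.length)
    (hr : ∀ k, R' (σ.take k) (τ.take k))
    (ht : ∀ y ∈ Z, ∀ k, (σ.take k = y.1.take k ↔ τ.take k = y.2.take k))
    (ho : ∀ y ∈ Z, (σ < y.1 ↔ τ < y.2)) : Good R' (insert (σ, τ) Z) := by
  have heq : ∀ y ∈ Z, (σ = y.1 ↔ τ = y.2) := by
    intro y hy
    constructor
    · intro h
      have h1 := (ht y hy (max τ.length y.2.length)).1 (by rw [h])
      rwa [List.take_of_length_le (le_max_left _ _), List.take_of_length_le (le_max_right _ _)] at h1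
    · intro h
      have h1 := (ht y hy (max σ.length y.1.length)).2 (by rw [h])
      rwa [List.take_of_length_le (le_max_left _ _), List.take_of_length_le (le_max_right _ _)] at h1
  refine ⟨?_, ?_, ?_, ?_⟩
  · rintro x (rfl | hx)
    · exact hl
    · exact hg.len x hx
  · rintro x (rfl | hx) k
    · exact hr k
    · exact hg.rel x hx k
  · rintro x (rfl | hx) y (rfl | hy) k
    · simp
    · exact ht y hy k
    · rw [eq_comm, ht x hx k, eq_comm]
    · exact hg.tak x hx y hy k
  · rintro x (rfl | hx) y (rfl | hy)
    · simp
    · exact ho y hy
    · have h1 := ho x hx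
      have h2 := heq x hx
      have h3 : x.1 < σ ↔ ¬ σ < x.1 ∧ ¬ σ = x.1 := by
        constructor
        · intro h
          exact ⟨not_lt.2 h.le, fun h' => absurd h' h.ne'⟩
        · rintro ⟨h, h'⟩
          exact lt_of_le_of_ne (not_lt.1 h) (fun h'' => h' h''.symm)
      have h4 : x.2 < τ ↔ ¬ τ < x.2 ∧ ¬ τ = x.2 := by
        constructor
        · intro h
          exact ⟨not_lt.2 h.le, fun h' => absurd h' h.ne'⟩
        · rintro ⟨h, h'⟩
          exact lt_of_le_of_ne (not_lt.1 h) (fun h'' => h' h''.symm)
      change x.1 < σ ↔ x.2 < τ
      rw [h3, h4, h1, h2]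
    · exact hg.ord x hx y hy

private theorem take_nil_iff {s t : List ℚ} (h : s.length = t.length) (k : ℕ) :
    ([] : List ℚ) = s.take k ↔ ([] : List ℚ) = t.take k := by
  rw [eq_comm, eq_comm (b := t.take k), List.take_eq_nil_iff, List.take_eq_nil_iff,
    ← List.length_eq_zero_iff, ← List.length_eq_zero_iff, h]

private theorem nil_lt_iff' {s t : List ℚ} (h : s.length = t.length) : [] < s ↔ [] < t := by
  cases s with
  | nil =>
    cases t with
    | nil => exact Iff.rfl
    | cons b t => simp at h
  | cons a s =>
    cases t with
    | nil => simp at h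
    | cons b t =>
      exact ⟨fun _ => List.nil_lt_cons b t, fun _ => List.nil_lt_cons a s⟩

private theorem good_cone (hg : Good R Z) {q q' : ℚ} {s0 t0 : List ℚ}
    (hx : (q :: s0, q' :: t0) ∈ Z) :
    Good (fun s t => R (q :: s) (q' :: t))
      (insert ([], []) ((fun z : List ℚ × List ℚ => (q :: z.1, q' :: z.2)) ⁻¹' Z)) := by
  refine ⟨?_, ?_, ?_, ?_⟩
  · rintro x (rfl | h)
    · rfl
    · have h1 := hg.len _ h
      simpa using h1
  · rintro x (rfl | h) k
    · have h1 := hg.rel _ hx 1
      simpa using h1
    · have h1 := hg.rel _ h (k + 1)
      simpa using h1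
  · rintro x (rfl | h) y (rfl | h') k
    · simp
    · have h1 := hg.len _ h'
      have h2 : y.1.length = y.2.length := by simpa using h1
      simpa using take_nil_iff h2 k
    · have h1 := hg.len _ h
      have h2 : x.1.length = x.2.length := by simpa using h1
      have h3 := take_nil_iff h2 k
      rw [eq_comm, eq_comm (b := x.2.take k)] at h3
      simpa using h3
    · have h1 := hg.tak _ h _ h' (k + 1)
      simpa using h1
  · rintro x (rfl | h) y (rfl | h')
    · exact Iff.rfl
    · have h1 := hg.len _ h'
      have h2 : y.1.length = y.2.length := by simpa using h1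
      exact nil_lt_iff' h2
    · constructor
      · intro h1
        exact absurd h1 (List.not_lt_nil _)
      · intro h1
        exact absurd h1 (List.not_lt_nil _)
    · have h1 := hg.ord _ h _ h'
      simp only [List.cons_lt_cons_iff, lt_irrefl, true_and, false_or] at h1
      exact h1

private theorem good_mono (h1 : ∀ σ τ, R σ τ → R' σ τ) (hg : Good R Z) : Good R' Z :=
  ⟨hg.len, fun x hx k => h1 _ _ (hg.rel x hx k), hg.tak, hg.ord⟩

theorem good_ext (h1 : ∀ σ τ, R σ τ → R' σ τ)
    (h2 : ∀ σ τ, R σ τ → ∀ (q : ℚ) (ρ : List ℚ) (lo hi : Finset ℚ),
      (∀ x ∈ lo, ∀ y ∈ hi, x < y) → ∃ (q' : ℚ) (ρ' : List ℚ), (∀ x ∈ lo, x < q') ∧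
        (∀ y ∈ hi, q' < y) ∧ ρ'.length = ρ.length ∧
        ∀ k, R' (σ ++ q :: ρ.take k) (τ ++ q' :: ρ'.take k))
    (hZ : Z.Finite) (hg : Good R Z) (h0 : ([], []) ∈ Z) (σ : List ℚ) :
    ∃ τ, Good R' (insert (σ, τ) Z) := by
  induction σ generalizing R R' Z with
  | nil =>
    refine ⟨[], ?_⟩
    rw [Set.insert_eq_of_mem h0]
    exact good_mono h1 hg
  | cons q ρ ih =>
    have hR0 : R [] [] := hg.rel _ h0 0
    by_cases hc : ∃ (s0 : List ℚ) (u : List ℚ), (q :: s0, u) ∈ Z
    · obtain ⟨s0, u, hx⟩ := hc
      cases u with
      | nil =>
        have := hg.len _ hx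
        simp at this
      | cons q' t0 =>
        have hgc := good_cone hg hx
        have hfin : (insert ([], [])
            ((fun z : List ℚ × List ℚ => (q :: z.1, q' :: z.2)) ⁻¹' Z)).Finite := by
          refine (hZ.preimage ?_).insert _
          rintro ⟨a, b⟩ _ ⟨c, d⟩ _ h
          simpa using h
        obtain ⟨τ', hτ'⟩ := ih (R := fun s t => R (q :: s) (q' :: t))
          (R' := fun s t => R' (q :: s) (q' :: t)) (fun σ τ h => h1 _ _ h)
          (fun σ τ h a ρ lo hi hlh => h2 _ _ h a ρ lo hi hlh) hfin hgc (Set.mem_insert _ _)
        have hm : (ρ, τ') ∈ insert (ρ, τ') (insert ([], [])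
            ((fun z : List ℚ × List ℚ => (q :: z.1, q' :: z.2)) ⁻¹' Z)) := Set.mem_insert _ _
        refine ⟨q' :: τ', ins (good_mono h1 hg) ?_ ?_ ?_ ?_⟩
        · have := hτ'.len _ hm
          simpa using this
        · intro k
          cases k with
          | zero => exact h1 _ _ hR0
          | succ k => exact hτ'.rel _ hm k
        · rintro ⟨y1, y2⟩ hy k
          have hly := hg.len _ hy
          cases y1 with
          | nil =>
            cases y2 with
            | nil => cases k <;> simp
            | cons b t => simp at hly
          | cons p s =>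
            cases y2 with
            | nil => simp at hly
            | cons p' t =>
              have hh := hg.tak _ hx _ hy 1
              simp only [List.take_succ_cons, List.take_zero, List.cons.injEq, and_true] at hh
              cases k with
              | zero => simp
              | succ k =>
                simp only [List.take_succ_cons, List.cons.injEq]
                by_cases hp : q = p
                · have hp' : q' = p' := hh.1 hp
                  subst hp
                  subst hp'
                  have hy' : (s, t) ∈ insert (ρ, τ') (insert ([], [])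
                      ((fun z : List ℚ × List ℚ => (q :: z.1, q' :: z.2)) ⁻¹' Z)) :=
                    Set.mem_insert_of_mem _ (Set.mem_insert_of_mem _ hy)
                  have h3 := hτ'.tak _ hm _ hy' k
                  simpa using h3
                · have hp' : ¬ q' = p' := fun h => hp (hh.2 h)
                  simp [hp, hp']
        · rintro ⟨y1, y2⟩ hy
          have hly := hg.len _ hy
          cases y1 with
          | nil =>
            cases y2 with
            | nil =>
              exact ⟨fun h => absurd h (List.not_lt_nil _), fun h => absurd h (List.not_lt_nil _)⟩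
            | cons b t => simp at hly
          | cons p s =>
            cases y2 with
            | nil => simp at hly
            | cons p' t =>
              have hh := hg.tak _ hx _ hy 1
              simp only [List.take_succ_cons, List.take_zero, List.cons.injEq, and_true] at hh
              simp only [List.cons_lt_cons_iff]
              by_cases hp : q = p
              · have hp' : q' = p' := hh.1 hp
                subst hp
                subst hp'
                have hy' : (s, t) ∈ insert (ρ, τ') (insert ([], [])
                    ((fun z : List ℚ × List ℚ => (q :: z.1, q' :: z.2)) ⁻¹' Z)) :=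
                  Set.mem_insert_of_mem _ (Set.mem_insert_of_mem _ hy)
                have h3 := hτ'.ord _ hm _ hy'
                simpa using h3
              · have hp' : ¬ q' = p' := fun h => hp (hh.2 h)
                have h3 := hg.ord _ hx _ hy
                simp only [List.cons_lt_cons_iff] at h3
                simp only [hp, hp', false_and, or_false] at h3 ⊢
                exact h3
    · have hc' : ∀ (s u : List ℚ), (q :: s, u) ∉ Z := fun s u h => hc ⟨s, u, h⟩
      classical
      set lo : Finset ℚ := (hZ.toFinset.filter fun x => x.1 ≠ [] ∧ x.1.headD 0 < q).image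
        fun x => x.2.headD 0 with hlo
      set hi : Finset ℚ := (hZ.toFinset.filter fun x => x.1 ≠ [] ∧ q < x.1.headD 0).image
        fun x => x.2.headD 0 with hhi
      have hloM : ∀ p s p' t, (p :: s, p' :: t) ∈ Z → p < q → p' ∈ lo := by
        intro p s p' t h hp
        rw [hlo, Finset.mem_image]
        refine ⟨(p :: s, p' :: t), ?_, rfl⟩
        rw [Finset.mem_filter, Set.Finite.mem_toFinset]
        exact ⟨h, by simp, hp⟩
      have hhiM : ∀ p s p' t, (p :: s, p' :: t) ∈ Z → q < p → p' ∈ hi := by
        intro p s p' t h hp
        rw [hhi, Finset.mem_image]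
        refine ⟨(p :: s, p' :: t), ?_, rfl⟩
        rw [Finset.mem_filter, Set.Finite.mem_toFinset]
        exact ⟨h, by simp, hp⟩
      have hlh : ∀ x ∈ lo, ∀ y ∈ hi, x < y := by
        intro x hx y hy
        rw [hlo, Finset.mem_image] at hx
        rw [hhi, Finset.mem_image] at hy
        obtain ⟨⟨x1, x2⟩, hx1, rfl⟩ := hx
        obtain ⟨⟨y1, y2⟩, hy1, rfl⟩ := hy
        rw [Finset.mem_filter, Set.Finite.mem_toFinset] at hx1 hy1
        obtain ⟨hxZ, hxn, hxq⟩ := hx1
        obtain ⟨hyZ, hyn, hyq⟩ := hy1
        have hlx := hg.len _ hxZ
        have hly := hg.len _ hyZ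
        cases x1 with
        | nil => exact absurd rfl hxn
        | cons a s =>
          cases y1 with
          | nil => exact absurd rfl hyn
          | cons b t =>
            cases x2 with
            | nil => simp at hlx
            | cons a' s' =>
              cases y2 with
              | nil => simp at hly
              | cons b' t' =>
                simp only [List.headD_cons] at hxq hyq ⊢
                have hab : a < b := hxq.trans hyq
                have h3 := hg.tak _ hxZ _ hyZ 1
                simp only [List.take_succ_cons, List.take_zero, List.cons.injEq, and_true] at h3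
                have h4 := hg.ord _ hxZ _ hyZ
                simp only [List.cons_lt_cons_iff] at h4
                rcases h4.1 (Or.inl hab) with h5 | ⟨h5, _⟩
                · exact h5
                · exact absurd (h3.2 h5) hab.ne
      obtain ⟨q', ρ', hq1, hq2, hlen, hR'⟩ := h2 [] [] hR0 q ρ lo hi hlh
      refine ⟨q' :: ρ', ins (good_mono h1 hg) ?_ ?_ ?_ ?_⟩
      · simp [hlen]
      · intro k
        cases k with
        | zero => exact h1 _ _ hR0
        | succ k => exact hR' k
      · rintro ⟨y1, y2⟩ hy k
        have hly := hg.len _ hy
        cases y1 with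
        | nil =>
          cases y2 with
          | nil => cases k <;> simp
          | cons b t => simp at hly
        | cons p s =>
          cases y2 with
          | nil => simp at hly
          | cons p' t =>
            cases k with
            | zero => simp
            | succ k =>
              simp only [List.take_succ_cons, List.cons.injEq]
              rcases lt_trichotomy q p with hp | hp | hp
              · have h3 : q' ≠ p' := (hq2 _ (hhiM _ _ _ _ hy hp)).ne
                simp [hp.ne, h3]
              · subst hp
                exact absurd hy (hc' _ _)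
              · have h3 : q' ≠ p' := (hq1 _ (hloM _ _ _ _ hy hp)).ne'
                simp [hp.ne', h3]
      · rintro ⟨y1, y2⟩ hy
        have hly := hg.len _ hy
        cases y1 with
        | nil =>
          cases y2 with
          | nil =>
            exact ⟨fun h => absurd h (List.not_lt_nil _), fun h => absurd h (List.not_lt_nil _)⟩
          | cons b t => simp at hly
        | cons p s =>
          cases y2 with
          | nil => simp at hly
          | cons p' t =>
            simp only [List.cons_lt_cons_iff]
            rcases lt_trichotomy q p with hp | hp | hp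
            · have h3 : q' < p' := hq2 _ (hhiM _ _ _ _ hy hp)
              exact ⟨fun _ => Or.inl h3, fun _ => Or.inl hp⟩
            · subst hp
              exact absurd hy (hc' _ _)
            · have h3 : p' < q' := hq1 _ (hloM _ _ _ _ hy hp)
              constructor
              · rintro (h | ⟨h, _⟩)
                · exact absurd h hp.not_gt
                · exact absurd h hp.ne'
              · rintro (h | ⟨h, _⟩)
                · exact absurd h h3.not_gt
                · exact absurd h h3.ne'

theorem good_symm (h : ∀ σ τ, R σ τ → R' τ σ) (hg : Good R Z) : Good R' (Prod.swap '' Z) := by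
  refine ⟨?_, ?_, ?_, ?_⟩
  · rintro _ ⟨x, hx, rfl⟩
    exact (hg.len x hx).symm
  · rintro _ ⟨x, hx, rfl⟩ k
    exact h _ _ (hg.rel x hx k)
  · rintro _ ⟨x, hx, rfl⟩ _ ⟨y, hy, rfl⟩ k
    exact (hg.tak x hx y hy k).symm
  · rintro _ ⟨x, hx, rfl⟩ _ ⟨y, hy, rfl⟩
    exact (hg.ord x hx y hy).symm

theorem good_insert (h : R [] []) (hg : Good R Z) : Good R (insert ([], []) Z) := by
  refine ins hg rfl (fun k => by simpa using h) (fun y hy k => ?_) (fun y hy => ?_)
  · have := take_nil_iff (hg.len y hy) k
    simpa using this
  · exact nil_lt_iff' (hg.len y hy)

end Pool.Agent.Work.MP_f1d084_lc.M
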