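import Mathlib
import Pool.Agent.Work.MP_f1d084_lc.BackForth
import Pool.Agent.Work.MP_f1d084_lc.M.Defs
import Pool.Agent.Work.MP_f1d084_lc.M.Ext

set_option autoImplicit false

/-! MODULE Aut (S-M). Automorphisms from a back and forth system.

PROOF. Apply `back_forth_equiv` (in `BackForth.lean`) with `P = Q = List ℚ`,
`E l = Good R (insert ([], []) {x | x ∈ l})`, and the list `l0 = List.ofFn fun i =>
((a i).nd, (b i).nd)` (so that the set is `zp a b`). Forth: `hext`. Back: `hext` for the swapped set
(`good_symm`, `hsym`; `Prod.swap` of the set belongs to `l.map Prod.swap`). Equality: `tak` with a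
large `k`. It gives a permutation `π` of `List ℚ` with `π (a i).nd = (b i).nd`, such that every two
pairs `(p, π p)`, `(p', π p')` lie in a good set; so `π` is strictly monotone (`ord`) and
`N (π p) = N p` (`rel` with a large `k` and `hlab`). The automorphism is
`⟨σ, i⟩ ↦ ⟨π σ, i⟩` (`ll_le_iff`; build an `Equiv` and prove `map_rel_iff'`). -/

namespace Pool.Agent.Work.MP_f1d084_lc.M

variable {N : List ℚ → ℕ}

theorem auto_of_good (R : List ℚ → List ℚ → Prop)
    (hlab : ∀ σ τ, R σ τ → N σ = N τ) (hsym : ∀ σ τ, R σ τ → R τ σ)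
    (hext : ∀ Z : Set (List ℚ × List ℚ), Z.Finite → Good R Z → ([], []) ∈ Z →
      ∀ σ, ∃ τ, Good R (insert (σ, τ) Z))
    {n : ℕ} (a b : Fin n → LL N) (hps : ∀ i, (a i).ps = (b i).ps) (hg : Good R (zp a b)) :
    ∃ f : LL N ≃o LL N, ∀ i, f (a i) = b i := by
  have hfin : ∀ l : List (List ℚ × List ℚ),
      (insert (([] : List ℚ), ([] : List ℚ)) {x | x ∈ l}).Finite := fun l =>
    (List.finite_toSet l).insert _
  have hmem : ∀ (l : List (List ℚ × List ℚ)) (y : List ℚ × List ℚ),
      insert (([] : List ℚ), ([] : List ℚ)) {x | x ∈ y :: l} =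
        insert y (insert (([] : List ℚ), ([] : List ℚ)) {x | x ∈ l}) := by
    intro l y
    ext z
    simp only [Set.mem_insert_iff, Set.mem_setOf_eq, List.mem_cons]
    tauto
  have hswap : ∀ Z : Set (List ℚ × List ℚ), Prod.swap '' (Prod.swap '' Z) = Z := by
    intro Z
    rw [← Set.image_comp, Prod.swap_swap_eq, Set.image_id]
  obtain ⟨π, h1, h2⟩ := back_forth_equiv (P := List ℚ) (Q := List ℚ)
    (fun l => Good R (insert ([], []) {x | x ∈ l}))
    (by
      intro l hl p
      obtain ⟨τ, hτ⟩ := hext _ (hfin l) hl (Set.mem_insert _ _) p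
      exact ⟨τ, by rw [hmem]; exact hτ⟩)
    (by
      intro l hl q
      have hsw := good_symm (R' := R) hsym hl
      obtain ⟨τ, hτ⟩ := hext _ ((hfin l).image _) hsw
        ⟨([], []), Set.mem_insert _ _, rfl⟩ q
      refine ⟨τ, ?_⟩
      have h3 := good_symm (R' := R) hsym hτ
      rw [Set.image_insert_eq, hswap] at h3
      rw [hmem]
      exact h3)
    (by
      intro l hl x hx y hy
      have hx' : x ∈ insert (([] : List ℚ), ([] : List ℚ)) {x | x ∈ l} :=
        Set.mem_insert_of_mem _ hx
      have hy' : y ∈ insert (([] : List ℚ), ([] : List ℚ)) {x | x ∈ l} :=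
        Set.mem_insert_of_mem _ hy
      have ht := hl.tak x hx' y hy' (x.1.length + y.1.length)
      have lx := hl.len x hx'
      have ly := hl.len y hy'
      rwa [List.take_of_length_le (by omega), List.take_of_length_le (by omega),
        List.take_of_length_le (by omega), List.take_of_length_le (by omega)] at ht)
    (List.ofFn fun i => ((a i).nd, (b i).nd))
    (by
      have : insert (([] : List ℚ), ([] : List ℚ))
          {x | x ∈ List.ofFn fun i => ((a i).nd, (b i).nd)} = zp a b := by
        unfold zp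
        congr 1
        ext z
        simp only [Set.mem_setOf_eq, List.mem_ofFn, Set.mem_range]
      rw [this]
      exact hg)
  have hlt : ∀ p p', p < p' ↔ π p < π p' := by
    intro p p'
    obtain ⟨l, hl, m1, m2⟩ := h2 p p'
    exact hl.ord _ (Set.mem_insert_of_mem _ m1) _ (Set.mem_insert_of_mem _ m2)
  have hN : ∀ p, N p = N (π p) := by
    intro p
    obtain ⟨l, hl, m1, _⟩ := h2 p p
    have hr := hl.rel _ (Set.mem_insert_of_mem _ m1) p.length
    have hlen := hl.len _ (Set.mem_insert_of_mem _ m1)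
    simp only at hr hlen
    rw [List.take_length, List.take_of_length_le (by omega)] at hr
    exact hlab _ _ hr
  let e : LL N ≃ LL N :=
    { toFun := fun c => ⟨π c.nd, c.ps⟩
      invFun := fun c => ⟨π.symm c.nd, c.ps⟩
      left_inv := fun c => by simp
      right_inv := fun c => by simp }
  refine ⟨⟨e, ?_⟩, ?_⟩
  · intro c d
    change (⟨π c.nd, c.ps⟩ : LL N) ≤ ⟨π d.nd, d.ps⟩ ↔ c ≤ d
    rw [ll_le_iff, ll_le_iff]
    simp only [← hlt, ← hN, π.injective.eq_iff]
  · intro i
    change (⟨π (a i).nd, (a i).ps⟩ : LL N) = b i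
    refine LL.ext ?_ (hps i)
    exact h1 ((a i).nd, (b i).nd) (by rw [List.mem_ofFn]; exact ⟨i, rfl⟩)

end Pool.Agent.Work.MP_f1d084_lc.M
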