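import Mathlib
import Pool.Agent.Work.MP_f1d084_lc.M.Defs

set_option autoImplicit false

namespace Pool.Agent.Work.MP_f1d084_lc.M

variable {X : Type} [TopologicalSpace X]

theorem exists_code (N : X → List ℚ → ℕ) (hN : ∀ σ, Continuous fun x => N x σ) :
    ∃ g : X → Code, Continuous g ∧ ∀ x, Nonempty (OfCode (g x) ≃o LL (N x)) := by
  classical
  obtain ⟨d⟩ := nonempty_denumerable (List ℚ × ℕ)
  let e : ℕ ≃ List ℚ × ℕ := (Denumerable.eqv (List ℚ × ℕ)).symm
  refine ⟨fun x m n => decide ((e m).1 < (e n).1 ∨ (e m).1 = (e n).1 ∧
    blk (N x (e m).1) (e m).2 (e n).2), ?_, fun x => ⟨?_⟩⟩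
  · refine continuous_pi fun m => continuous_pi fun n => ?_
    have h : Continuous fun k : ℕ => decide ((e m).1 < (e n).1 ∨ (e m).1 = (e n).1 ∧
        blk k (e m).2 (e n).2) := continuous_of_discreteTopology
    exact h.comp (hN (e m).1)
  · exact
      { toFun := fun m => ⟨(e m).1, (e m).2⟩
        invFun := fun a => e.symm (a.nd, a.ps)
        left_inv := fun m => e.symm_apply_apply m
        right_inv := fun a => by
          have h := e.apply_symm_apply (a.nd, a.ps)
          refine LL.ext ?_ ?_
          · exact congrArg Prod.fst h
          · exact congrArg Prod.snd h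
        map_rel_iff' := fun {a b} => by
          refine (ll_le_iff _ _).trans ?_
          exact (decide_eq_true_iff).symm }

theorem continuous_clr (s : St X) : Continuous fun x => clr x s := by
  classical
  cases s with
  | sp c => exact continuous_const
  | U c b => exact continuous_const
  | E s => exact continuous_const
  | T k β =>
    cases k with
    | zero =>
      have h : (fun x => clr x (St.T 0 β)) = fun x => if x ∈ β.1 then 1 else 0 := by
        funext x
        simp only [clr]
      rw [h]
      refine Continuous.if (fun a ha => ?_) continuous_const continuous_const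
      have h2 : frontier {x : X | x ∈ β.1} = ∅ := β.2.frontier_eq
      rw [h2] at ha
      exact absurd ha (Set.notMem_empty a)
    | succ k => exact continuous_const
  | dead => exact continuous_const

theorem continuous_lab (S : ℕ → ℕ → (k : ℕ) → BC X k) (σ : List ℚ) :
    Continuous fun x => lab S x σ :=
  continuous_const.add (continuous_clr (st S σ))

end Pool.Agent.Work.MP_f1d084_lc.M
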