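import Mathlib
import Pool.Agent.Work.MP_f1d084_lc.Sp1
import Pool.Agent.Work.MP_f1d084_lc.M.Defs
import Pool.Agent.Work.MP_f1d084_lc.M.Ext

set_option autoImplicit false

/-! MODULE EFg (S-M). The game. (`tpk r n a` of `Sp1.lean` is the type of depth `r` of the tuple
`a`: for `r = 0` the order table, for `r + 1` the set of the `tpk r (n + 1) (snc a x)`.)

PROOF by induction on `r`, for all `n`, `a`, `b`.
`r = 0`: `a i ≤ a j ↔ b i ≤ b j`: by `ll_le_iff`, `a i ≤ a j` iff `(a i).nd < (a j).nd`, or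
`(a i).nd = (a j).nd` and `blk (N (a i).nd) (a i).ps (a j).ps`. Use `ord` for the order, `tak` with a
large `k` for the equality of nodes, `rel` with a large `k` and `hlab` for `N (a i).nd = N (b i).nd`.
`r + 1`: two sets are equal. Given `x : LL N`, `hext r` for `Z = zp a b` (finite) and `σ = x.nd`
gives `τ` with `Good (R r) (insert (x.nd, τ) (zp a b))`; put `y = ⟨τ, x.ps⟩`;
`zp (snc a x) (snc b y)` is a subset of this set (Good is inherited by subsets), so by the induction
hypothesis `tpk r (n + 1) (snc a x) = tpk r (n + 1) (snc b y)`. The other inclusion is the same for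
`b`, `a`, with `good_symm` (`Prod.swap '' zp a b = zp b a`). -/

namespace Pool.Agent.Work.MP_f1d084_lc.M

variable {N : List ℚ → ℕ}

private theorem good_sub {R : List ℚ → List ℚ → Prop} {Z Z' : Set (List ℚ × List ℚ)}
    (h : Good R Z) (hs : Z' ⊆ Z) : Good R Z' :=
  ⟨fun x hx => h.len x (hs hx), fun x hx k => h.rel x (hs hx) k,
    fun x hx y hy k => h.tak x (hs hx) y (hs hy) k, fun x hx y hy => h.ord x (hs hx) y (hs hy)⟩

private theorem zp_mem {n : ℕ} (a b : Fin n → LL N) (i : Fin n) :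
    ((a i).nd, (b i).nd) ∈ zp a b := Or.inr ⟨i, rfl⟩

private theorem zp_swap {n : ℕ} (a b : Fin n → LL N) : zp b a = Prod.swap '' zp a b := by
  unfold zp
  rw [Set.image_insert_eq, ← Set.range_comp]
  rfl

private theorem zp_fin {n : ℕ} (a b : Fin n → LL N) : (zp a b).Finite :=
  (Set.finite_range _).insert _

private theorem key (R : ℕ → List ℚ → List ℚ → Prop)
    (hext : ∀ (r : ℕ) (Z : Set (List ℚ × List ℚ)), Z.Finite → Good (R (r + 1)) Z → ([], []) ∈ Z →
      ∀ σ, ∃ τ, Good (R r) (insert (σ, τ) Z)) (r : ℕ)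
    (ih : ∀ (n : ℕ) (a b : Fin n → LL N), (∀ i, (a i).ps = (b i).ps) → Good (R r) (zp a b) →
      tpk r n a = tpk r n b) (n : ℕ) (a b : Fin n → LL N) (hps : ∀ i, (a i).ps = (b i).ps)
    (hg : Good (R (r + 1)) (zp a b)) (x : LL N) :
    ∃ y : LL N, tpk r (n + 1) (snc a x) = tpk r (n + 1) (snc b y) := by
  obtain ⟨τ, hτ⟩ := hext r (zp a b) (zp_fin a b) hg (Or.inl rfl) x.nd
  refine ⟨⟨τ, x.ps⟩, ih (n + 1) _ _ (fun i => ?_) (good_sub hτ ?_)⟩
  · refine Fin.lastCases ?_ (fun i => ?_) i
    · rw [snc_last, snc_last]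
    · rw [snc_castSucc, snc_castSucc]
      exact hps i
  · rintro p (rfl | ⟨i, rfl⟩)
    · exact Or.inr (Or.inl rfl)
    · refine Fin.lastCases ?_ (fun i => ?_) i
      · refine Or.inl ?_
        simp only [snc_last]
      · refine Or.inr (Or.inr ⟨i, ?_⟩)
        simp only [snc_castSucc]

theorem tpk_eq_of_good (R : ℕ → List ℚ → List ℚ → Prop)
    (hlab : ∀ r σ τ, R r σ τ → N σ = N τ) (hsym : ∀ r σ τ, R r σ τ → R r τ σ)
    (hext : ∀ (r : ℕ) (Z : Set (List ℚ × List ℚ)), Z.Finite → Good (R (r + 1)) Z → ([], []) ∈ Z →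
      ∀ σ, ∃ τ, Good (R r) (insert (σ, τ) Z)) :
    ∀ (r n : ℕ) (a b : Fin n → LL N), (∀ i, (a i).ps = (b i).ps) → Good (R r) (zp a b) →
      tpk r n a = tpk r n b := by
  intro r
  induction r with
  | zero =>
    intro n a b hps hg
    refine funext fun i => funext fun j => propext ?_
    change a i ≤ a j ↔ b i ≤ b j
    rw [ll_le_iff, ll_le_iff]
    have h1 : (a i).nd < (a j).nd ↔ (b i).nd < (b j).nd :=
      hg.ord _ (zp_mem a b i) _ (zp_mem a b j)
    have hli : (a i).nd.length = (b i).nd.length := hg.len _ (zp_mem a b i)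
    have hlj : (a j).nd.length = (b j).nd.length := hg.len _ (zp_mem a b j)
    have h2 : (a i).nd = (a j).nd ↔ (b i).nd = (b j).nd := by
      have h := hg.tak _ (zp_mem a b i) _ (zp_mem a b j)
        (max (a i).nd.length (a j).nd.length)
      rw [List.take_of_length_le (le_max_left _ _), List.take_of_length_le (le_max_right _ _),
        List.take_of_length_le (hli ▸ le_max_left _ _),
        List.take_of_length_le (hlj ▸ le_max_right _ _)] at h
      exact h
    have h3 : N (a i).nd = N (b i).nd := by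
      have h := hg.rel _ (zp_mem a b i) (a i).nd.length
      rw [List.take_of_length_le le_rfl, List.take_of_length_le hli.symm.le] at h
      exact hlab 0 _ _ h
    rw [h1, h2, h3, hps i, hps j]
  | succ r ih =>
    intro n a b hps hg
    refine Set.ext fun t => ⟨?_, ?_⟩
    · rintro ⟨x, rfl⟩
      obtain ⟨y, hy⟩ := key R hext r ih n a b hps hg x
      exact ⟨y, hy.symm⟩
    · rintro ⟨x, rfl⟩
      have hg' : Good (R (r + 1)) (zp b a) := by
        rw [zp_swap]
        exact good_symm (hsym (r + 1)) hg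
      obtain ⟨y, hy⟩ := key R hext r ih n b a (fun i => (hps i).symm) hg' x
      exact ⟨y, hy.symm⟩

end Pool.Agent.Work.MP_f1d084_lc.M
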