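import Mathlib
import Pool.Agent.Work.MP_f1d084_lc.M.Defs
import Pool.Agent.Work.MP_f1d084_lc.M.Lst

set_option autoImplicit false

/-! MODULE Cov (M). Immediate successors in `LL N`. Every point `σ` of the dense order `List ℚ` is
replaced by a block with the elements `0 < 1 < ... < n < ... < n + 3 < n + 2 < n + 1`, `n = N σ`.
(The analogous statements for an older order are in `Lin2.lean`: `lin_cov_iff`, `lin_pre_inl`,
`lin_suc_inl`, `lin_fst_iff`; `cov`, `pre`, `suc` are defined in `Lin1.lean`.)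

PROOFS. `ll_cov_iff`: `cov u v` says `u < v` and nothing is strictly between. If `u.nd < v.nd` then
by `list_dense` there is a node strictly between, contradiction (`ll_lt_iff`). If `u.nd = v.nd`
then in the block only the pairs `(i, i + 1)` with `i + 1 ≤ n` and `(i + 1, i)` with `n < i` are
neighbours: for `i < j ≤ n` the element `i + 1` is between unless `j = i + 1`; for
`i ≤ n < j` the element `j + 1` is strictly between; for `n < j < i` the element `j + 1` is
between unless `i = j + 1`. Conversely for these pairs an element `w` between has the same node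
(`w.nd` is between `u.nd` and `v.nd = u.nd`) and its position is `i` or `i + 1` (omega after
unfolding `blk`).
`ll_pre_iff`: by induction on `k`; `pre 0` says that nothing is covered: by `ll_cov_iff` an element
of position `p` is not a cover iff `p = 0` (for `1 ≤ p ≤ n` it covers `p - 1`; for `p > n` it
covers `p + 1`). `pre (k + 1)` says that it covers an element with `pre k`: for `p > n` this would
be an element with position `p + 1 > n`, which has no `pre k`; for `1 ≤ p ≤ n` the unique element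
which is covered is `p - 1`.
`ll_suc_iff`: the same in the other direction: `suc 0` holds exactly for the positions `n` and
`n + 1`; `p < n` is covered by `p + 1` only, `p > n + 1` by `p - 1` only.
`ll_bf_iff`: `pre 0` gives position `0`, then `suc n` gives `0 + n = N u.nd`. -/

namespace Pool.Agent.Work.MP_f1d084_lc.M

variable {N : List ℚ → ℕ}

theorem ll_cov_iff (u v : LL N) : cov (LL N) u v ↔ u.nd = v.nd ∧
    ((v.ps = u.ps + 1 ∧ v.ps ≤ N u.nd) ∨ (N u.nd < v.ps ∧ u.ps = v.ps + 1)) := by
  constructor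
  · rintro ⟨⟨h1, h2⟩, h3⟩
    have hlt : u < v := lt_of_le_not_ge h1 h2
    have hno : ∀ w : LL N, u < w → v ≤ w := fun w hw => h3 w (not_le.mpr hw)
    rcases (ll_lt_iff u v).1 hlt with h4 | ⟨h4, h5, h6⟩
    · exfalso
      obtain ⟨ρ, hρ1, hρ2⟩ := list_dense _ _ h4
      have h7 := hno ⟨ρ, 0⟩ ((ll_lt_iff _ _).2 (Or.inl hρ1))
      exact absurd h7 (not_le.mpr ((ll_lt_iff _ _).2 (Or.inl hρ2)))
    · refine ⟨h4, ?_⟩
      have key : ∀ j : ℕ, blk (N u.nd) u.ps j → u.ps ≠ j → blk (N u.nd) v.ps j := by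
        intro j hj hne
        have h7 := hno ⟨u.nd, j⟩ ((ll_lt_iff _ _).2 (Or.inr ⟨rfl, hj, hne⟩))
        rcases (ll_le_iff _ _).1 h7 with h8 | ⟨_, h8⟩
        · exfalso
          change v.nd < u.nd at h8
          rw [h4] at h8
          exact lt_irrefl _ h8
        · rw [← h4] at h8
          exact h8
      unfold blk at h5 key
      rcases h5 with h5 | h5 | h5
      · have h7 := key (u.ps + 1) (by omega) (by omega)
        omega
      · have h7 := key (v.ps + 1) (by omega) (by omega)
        omega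
      · have h7 := key (u.ps - 1) (by omega) (by omega)
        omega
  · rintro ⟨h1, h2⟩
    have hlt : u < v := by
      rw [ll_lt_iff]
      right
      refine ⟨h1, ?_, ?_⟩
      · unfold blk
        omega
      · omega
    refine ⟨⟨hlt.le, not_le.mpr hlt⟩, fun w hw => ?_⟩
    have hw' : u < w := not_le.mp hw
    rcases (ll_lt_iff u w).1 hw' with h4 | ⟨h4, h5, h6⟩
    · rw [ll_le_iff]
      left
      rw [← h1]
      exact h4
    · rw [ll_le_iff]
      right
      refine ⟨h1.symm.trans h4, ?_⟩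
      rw [← h1]
      unfold blk at h5 ⊢
      omega

theorem ll_pre_iff (k : ℕ) (u : LL N) : pre k (LL N) u ↔ u.ps = k ∧ k ≤ N u.nd := by
  induction k generalizing u with
  | zero =>
    constructor
    · intro h
      refine ⟨?_, Nat.zero_le _⟩
      by_contra h0
      by_cases h1 : u.ps ≤ N u.nd
      · exact h ⟨u.nd, u.ps - 1⟩ ((ll_cov_iff _ _).2 ⟨rfl, Or.inl ⟨by simp only; omega, h1⟩⟩)
      · exact h ⟨u.nd, u.ps + 1⟩ ((ll_cov_iff _ _).2 ⟨rfl, Or.inr ⟨by simp only; omega, rfl⟩⟩)
    · rintro ⟨h0, _⟩ w hw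
      obtain ⟨_, h2⟩ := (ll_cov_iff _ _).1 hw
      omega
  | succ k ih =>
    constructor
    · rintro ⟨w, h1, h2⟩
      obtain ⟨h3, h4⟩ := (ih w).1 h2
      obtain ⟨h5, h6⟩ := (ll_cov_iff _ _).1 h1
      rw [← h5]
      omega
    · rintro ⟨h1, h2⟩
      exact ⟨⟨u.nd, k⟩, (ll_cov_iff _ _).2 ⟨rfl, Or.inl ⟨h1, by simp only; omega⟩⟩,
        (ih _).2 ⟨rfl, by simp only; omega⟩⟩

theorem ll_suc_iff (k : ℕ) (u : LL N) :
    suc k (LL N) u ↔ u.ps + k = N u.nd ∨ u.ps = N u.nd + 1 + k := by
  induction k generalizing u with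
  | zero =>
    constructor
    · intro h
      by_contra h0
      by_cases h1 : u.ps < N u.nd
      · exact h ⟨u.nd, u.ps + 1⟩ ((ll_cov_iff _ _).2 ⟨rfl, Or.inl ⟨rfl, by simp only; omega⟩⟩)
      · exact h ⟨u.nd, u.ps - 1⟩ ((ll_cov_iff _ _).2 ⟨rfl, Or.inr ⟨by simp only; omega,
          by simp only; omega⟩⟩)
    · intro h0 w hw
      obtain ⟨_, h2⟩ := (ll_cov_iff _ _).1 hw
      omega
  | succ k ih =>
    constructor
    · rintro ⟨w, h1, h2⟩
      have h3 := (ih w).1 h2
      obtain ⟨h5, h6⟩ := (ll_cov_iff _ _).1 h1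
      rw [← h5] at h3
      omega
    · intro h
      by_cases h1 : u.ps + (k + 1) = N u.nd
      · exact ⟨⟨u.nd, u.ps + 1⟩, (ll_cov_iff _ _).2 ⟨rfl, Or.inl ⟨rfl, by simp only; omega⟩⟩,
          (ih _).2 (by simp only; omega)⟩
      · exact ⟨⟨u.nd, u.ps - 1⟩, (ll_cov_iff _ _).2 ⟨rfl, Or.inr ⟨by simp only; omega,
          by simp only; omega⟩⟩, (ih _).2 (by simp only; omega)⟩

theorem ll_bf_iff (n : ℕ) (u : LL N) : bf n (LL N) u ↔ u.ps = 0 ∧ N u.nd = n := by
  unfold bf
  rw [ll_pre_iff, ll_suc_iff]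
  omega

end Pool.Agent.Work.MP_f1d084_lc.M
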