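import Mathlib
import Pool.Agent.Work.MP_f1d084_lc.M.Defs
import Pool.Agent.Work.MP_f1d084_lc.M.Lst
import Pool.Agent.Work.MP_f1d084_lc.M.Cov

set_option autoImplicit false

/-! MODULE Anc (S-M). The first elements of blocks, the depth of a node and the initial segments of
the node of `y` are first-order definable.

PROOFS. `isFO_bf`: `isFO_pre`, `isFO_suc`, `IsFO.and`. `isFO_node`: a finite disjunction
(`¬ ∀ c : Fin 7, ¬ ...`, induction as in `IsFO.forall_fin` of `Grp1.lean`; do NOT import `Grp1`,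
copy it as a private lemma). `isFO_anc`: as `isFO_blw` etc. in `Lin1.lean` with `IsFO.all`.
`ll_node_iff`: `ll_bf_iff` and `hN`: `N u.nd = 7 * d + c` with `c < 7` gives
`u.nd.length = N u.nd / 7 = d`; conversely take `c = N u.nd % 7`.
`ll_anc_iff`: write `σ = y.nd`. If `d ≤ σ.length` then `⟨σ.take d, 0⟩` is the greatest element `w`
with `node d w` (so `w.ps = 0`, `w.nd.length = d`) and `w ≤ y`: it is `≤ y` by `take_le_self`
(and `blk n 0 j` always holds), and `w ≤ y` gives `w.nd < σ` (use `le_take_of_lt`) or `w.nd = σ`.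
The greatest element is unique (antisymmetry, `LL.ext`). If `σ.length < d` there is no greatest
one: `w ≤ y` and `w.nd.length = d` give `w.nd < σ`, use `exists_between_of_length`. -/

namespace Pool.Agent.Work.MP_f1d084_lc.M

variable {N : List ℚ → ℕ}

private theorem isFO_forall_fin' {α : Type} (n : ℕ)
    {Q : Fin n → ∀ (P : Type) [LE P], (α → P) → Prop} (h : ∀ i, IsFO (Q i)) :
    IsFO (fun (P : Type) [LE P] (v : α → P) => ∀ i, Q i P v) := by
  induction n with
  | zero =>
    obtain ⟨φ, hφ⟩ := isFO_true (α := α)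
    exact ⟨φ, fun P _ v => (hφ P v).trans (by simp)⟩
  | succ n ih =>
    obtain ⟨φ, hφ⟩ := (h 0).and (ih fun i => h i.succ)
    exact ⟨φ, fun P _ v => (hφ P v).trans (Fin.forall_fin_succ (P := fun i => Q i P v)).symm⟩

private theorem isFO_congr' {α : Type} {Q Q' : ∀ (P : Type) [LE P], (α → P) → Prop} (h : IsFO Q)
    (hQ : ∀ (P : Type) [LE P] (v : α → P), Q P v ↔ Q' P v) : IsFO Q' := by
  obtain ⟨φ, hφ⟩ := h
  exact ⟨φ, fun P _ v => (hφ P v).trans (hQ P v)⟩

theorem isFO_bf (n : ℕ) {α : Type} (i : α) :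
    IsFO (fun (P : Type) [LE P] (v : α → P) => bf n P (v i)) :=
  (isFO_pre 0 i).and (isFO_suc n i)

theorem isFO_node (d : ℕ) {α : Type} (i : α) :
    IsFO (fun (P : Type) [LE P] (v : α → P) => node d P (v i)) := by
  refine isFO_congr' (isFO_forall_fin' 7 (Q := fun c P _ v => ¬ bf (7 * d + c) P (v i))
    (fun c => (isFO_bf _ i).not)).not ?_
  intro P _ v
  unfold node
  push Not
  exact Iff.rfl

theorem isFO_anc (d : ℕ) {α : Type} (i j : α) :
    IsFO (fun (P : Type) [LE P] (v : α → P) => anc d P (v i) (v j)) :=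
  (isFO_node d i).and ((isFO_le i j).and (IsFO.all (Q := fun P _ v => node d P (v (Sum.inr ())) →
    v (Sum.inr ()) ≤ v (Sum.inl j) → v (Sum.inr ()) ≤ v (Sum.inl i))
    ((isFO_node d _).imp ((isFO_le _ _).imp (isFO_le _ _)))))

theorem ll_node_iff (hN : ∀ σ, N σ / 7 = σ.length) (d : ℕ) (u : LL N) :
    node d (LL N) u ↔ u.ps = 0 ∧ u.nd.length = d := by
  unfold node
  have h := hN u.nd
  constructor
  · rintro ⟨c, hc⟩
    obtain ⟨h1, h2⟩ := (ll_bf_iff _ _).1 hc
    have h3 := c.2
    omega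
  · rintro ⟨h1, h2⟩
    refine ⟨⟨N u.nd % 7, by omega⟩, (ll_bf_iff _ _).2 ⟨h1, ?_⟩⟩
    simp only
    omega

private theorem nd_le_of_le {a b : LL N} (h : a ≤ b) : a.nd ≤ b.nd := by
  rcases (ll_le_iff a b).1 h with h1 | ⟨h1, _⟩
  · exact h1.le
  · exact h1.le

private theorem nd_le_take {w y : LL N} (h : w ≤ y) (hl : w.nd.length ≤ y.nd.length) :
    w.nd ≤ y.nd.take w.nd.length := by
  rcases (ll_le_iff w y).1 h with h1 | ⟨h1, _⟩
  · exact le_take_of_lt _ _ h1 hl
  · rw [h1, List.take_length]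

private theorem le_of_nd_le {w z : LL N} (h : w.nd ≤ z.nd) (h0 : w.ps = 0) : w ≤ z := by
  rw [ll_le_iff]
  rcases lt_or_eq_of_le h with h1 | h1
  · exact Or.inl h1
  · right
    refine ⟨h1, ?_⟩
    unfold blk
    omega

theorem ll_anc_iff (hN : ∀ σ, N σ / 7 = σ.length) (d : ℕ) (z y : LL N) :
    anc d (LL N) z y ↔ d ≤ y.nd.length ∧ z.nd = y.nd.take d ∧ z.ps = 0 := by
  unfold anc
  constructor
  · rintro ⟨hz, hzy, hmax⟩
    obtain ⟨hz0, hzd⟩ := (ll_node_iff hN d z).1 hz
    by_cases hd : d ≤ y.nd.length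
    · refine ⟨hd, ?_, hz0⟩
      have h1 : (⟨y.nd.take d, 0⟩ : LL N) ≤ y := le_of_nd_le (take_le_self _ _) rfl
      have h2 : node d (LL N) ⟨y.nd.take d, 0⟩ := by
        rw [ll_node_iff hN]
        refine ⟨rfl, ?_⟩
        simp only [List.length_take]
        omega
      have h3 := nd_le_of_le (hmax _ h2 h1)
      have h4 := nd_le_take hzy (by omega)
      rw [hzd] at h4
      exact le_antisymm h4 h3
    · exfalso
      have hd' : y.nd.length < z.nd.length := by omega
      have h1 : z.nd < y.nd := by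
        rcases lt_or_eq_of_le (nd_le_of_le hzy) with h1 | h1
        · exact h1
        · rw [h1] at hd'
          exact absurd hd' (lt_irrefl _)
      obtain ⟨w', hw1, hw2, hw3⟩ := exists_between_of_length _ _ h1 hd'
      have h2 : (⟨w', 0⟩ : LL N) ≤ y := le_of_nd_le hw3.le rfl
      have h3 : node d (LL N) ⟨w', 0⟩ := by
        rw [ll_node_iff hN]
        exact ⟨rfl, hw1.trans hzd⟩
      have h4 := nd_le_of_le (hmax _ h3 h2)
      exact absurd hw2 (not_lt.mpr h4)
  · rintro ⟨hd, hz, h0⟩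
    refine ⟨?_, ?_, ?_⟩
    · rw [ll_node_iff hN]
      refine ⟨h0, ?_⟩
      rw [hz, List.length_take]
      omega
    · apply le_of_nd_le _ h0
      rw [hz]
      exact take_le_self _ _
    · intro w hw hwy
      obtain ⟨hw0, hwd⟩ := (ll_node_iff hN d w).1 hw
      apply le_of_nd_le _ hw0
      have h4 := nd_le_take hwy (by omega)
      rw [hwd] at h4
      rw [hz]
      exact h4

end Pool.Agent.Work.MP_f1d084_lc.M
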