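import Mathlib
import Pool.Agent.Work.MP_f1d084_lc.M.Defs
import Pool.Agent.Work.MP_f1d084_lc.M.Anc

set_option autoImplicit false

/-! MODULE Dfb (M). Definable properties of nodes.

PROOFS. `Dfn.congr`, `Dfn.not`, `Dfn.and`: immediate (`IsFO.not`, `IsFO.and`).
`Dfn.lab`: the property `bf n`, by `ll_bf_iff`.
`Dfn.ex`: if `Φ` defines `Q` for nodes of depth `d + 1`, then `fun σ => ∃ q, Q (σ ++ [q])` is
defined for nodes of depth `d` by: `∃ w, node (d + 1) w ∧ anc d v w ∧ Φ w` (`IsFO.ex` with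
`(isFO_node _ (Sum.inr ())).and (...)`, `IsFO.relabel` for `Φ`). Indeed for `v = ⟨σ, 0⟩`,
`σ.length = d` the elements `w` are exactly `⟨σ ++ [q], 0⟩`: `w.ps = 0`, `w.nd.length = d + 1`,
`w.nd.take d = σ`.
`dfn_iff`: for `Q` definable by `Φ` at depth `d` the formula
`∃ z, anc d z y ∧ Φ z` holds at `y = a i` iff `Q ((a i).nd.take d)`, given `d ≤ (a i).nd.length`
(`ll_anc_iff`, `List.length_take`); use `IsFO.iff` with `h : SameType a b`.
`len_eq`: `∃ z, anc d z y` holds iff `d ≤ y.nd.length`.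
`tak_iff`: for `d ≤` both lengths use the formula `∃ z, anc d z (v i) ∧ anc d z (v j)`
(equivalent to `(a i).nd.take d = (a j).nd.take d`). In general let `l = (a i).nd.length` and
`m = (a j).nd.length` (same for `b` by `len_eq`): if `d > l` then `take d (a i).nd = (a i).nd`
has length `l`, so equality holds iff `m = l` and `take l` of both are equal, or it fails; same if
`d > m`. -/

namespace Pool.Agent.Work.MP_f1d084_lc.M

variable {N : List ℚ → ℕ}

theorem Dfn.congr {d : ℕ} {Q Q' : List ℚ → Prop} (h : Dfn N d Q)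
    (h' : ∀ σ, σ.length = d → (Q σ ↔ Q' σ)) : Dfn N d Q' := by
  obtain ⟨Φ, h1, h2⟩ := h
  exact ⟨Φ, h1, fun σ hσ => (h2 σ hσ).trans (h' σ hσ)⟩

theorem Dfn.not {d : ℕ} {Q : List ℚ → Prop} (h : Dfn N d Q) : Dfn N d (fun σ => ¬ Q σ) := by
  obtain ⟨Φ, h1, h2⟩ := h
  exact ⟨_, h1.not, fun σ hσ => not_congr (h2 σ hσ)⟩

theorem Dfn.and {d : ℕ} {Q Q' : List ℚ → Prop} (h : Dfn N d Q) (h' : Dfn N d Q') :
    Dfn N d (fun σ => Q σ ∧ Q' σ) := by
  obtain ⟨Φ, h1, h2⟩ := h
  obtain ⟨Φ', h1', h2'⟩ := h'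
  exact ⟨_, h1.and h1', fun σ hσ => and_congr (h2 σ hσ) (h2' σ hσ)⟩

theorem Dfn.lab (d n : ℕ) : Dfn N d (fun σ => N σ = n) := by
  refine ⟨fun P _ v => bf n P (v 0), isFO_bf n 0, fun σ _ => ?_⟩
  exact (ll_bf_iff n (⟨σ, 0⟩ : LL N)).trans (by simp)

theorem Dfn.ex (hN : ∀ σ, N σ / 7 = σ.length) {d : ℕ} {Q : List ℚ → Prop} (h : Dfn N (d + 1) Q) :
    Dfn N d (fun σ => ∃ q, Q (σ ++ [q])) := by
  obtain ⟨Φ, h1, h2⟩ := h
  refine ⟨fun P _ v => ∃ w : P, node (d + 1) P w ∧ anc d P (v 0) w ∧ Φ P (fun _ => w), ?_, ?_⟩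
  · exact ((isFO_node (d + 1) (Sum.inr () : Fin 1 ⊕ Unit)).and
      ((isFO_anc d (Sum.inl 0) (Sum.inr ())).and (h1.relabel (fun _ => Sum.inr ())))).ex
  · intro σ hσ
    constructor
    · rintro ⟨w, hw1, hw2, hw3⟩
      rw [ll_node_iff hN] at hw1
      rw [ll_anc_iff hN] at hw2
      obtain ⟨hp, hl⟩ := hw1
      obtain ⟨_, h4, _⟩ := hw2
      have h4' : σ = w.nd.take d := h4
      have h5 : (w.nd.drop d).length = 1 := by
        rw [List.length_drop, hl]
        omega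
      obtain ⟨q, hq⟩ := List.length_eq_one_iff.1 h5
      have h6 : w.nd = σ ++ [q] := by
        rw [h4', ← hq, List.take_append_drop]
      refine ⟨q, ?_⟩
      rw [← h6, ← h2 w.nd hl]
      have h7 : (⟨w.nd, 0⟩ : LL N) = w := LL.ext rfl hp.symm
      rw [h7]
      exact hw3
    · rintro ⟨q, hq⟩
      refine ⟨⟨σ ++ [q], 0⟩, ?_, ?_, ?_⟩
      · rw [ll_node_iff hN]
        exact ⟨rfl, by simp [hσ]⟩
      · rw [ll_anc_iff hN]
        refine ⟨?_, ?_, rfl⟩
        · change d ≤ (σ ++ [q]).length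
          simp [hσ]
        · change σ = (σ ++ [q]).take d
          rw [← hσ, List.take_left']
          rfl
      · exact (h2 (σ ++ [q]) (by simp [hσ])).2 hq

section

variable {n : ℕ} {a b : Fin n → LL N}

theorem dfn_iff (hN : ∀ σ, N σ / 7 = σ.length) (h : SameType a b) {d : ℕ} {Q : List ℚ → Prop}
    (hQ : Dfn N d Q) (i : Fin n) (h1 : d ≤ (a i).nd.length) (h2 : d ≤ (b i).nd.length) :
    Q ((a i).nd.take d) ↔ Q ((b i).nd.take d) := by
  obtain ⟨Φ, hΦ1, hΦ2⟩ := hQ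
  have hfo : IsFO (fun (P : Type) [LE P] (v : Fin n → P) =>
      ∃ z : P, anc d P z (v i) ∧ Φ P (fun _ => z)) :=
    ((isFO_anc d (Sum.inr () : Fin n ⊕ Unit) (Sum.inl i)).and
      (hΦ1.relabel (fun _ => Sum.inr ()))).ex
  have key : ∀ y : LL N, d ≤ y.nd.length →
      ((∃ z : LL N, anc d (LL N) z y ∧ Φ (LL N) (fun _ => z)) ↔ Q (y.nd.take d)) := by
    intro y hy
    have hl : (y.nd.take d).length = d := by
      rw [List.length_take]
      omega
    rw [← hΦ2 _ hl]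
    constructor
    · rintro ⟨z, hz1, hz2⟩
      rw [ll_anc_iff hN] at hz1
      have h7 : (⟨y.nd.take d, 0⟩ : LL N) = z := LL.ext hz1.2.1.symm hz1.2.2.symm
      rw [h7]
      exact hz2
    · intro h3
      refine ⟨⟨y.nd.take d, 0⟩, ?_, h3⟩
      rw [ll_anc_iff hN]
      exact ⟨hy, rfl, rfl⟩
  rw [← key _ h1, ← key _ h2]
  exact hfo.iff h

theorem len_eq (hN : ∀ σ, N σ / 7 = σ.length) (h : SameType a b) (i : Fin n) :
    (a i).nd.length = (b i).nd.length := by
  have hfo : ∀ d, IsFO (fun (P : Type) [LE P] (v : Fin n → P) => ∃ z : P, anc d P z (v i)) :=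
    fun d => (isFO_anc d (Sum.inr () : Fin n ⊕ Unit) (Sum.inl i)).ex
  have key : ∀ (d : ℕ) (y : LL N), (∃ z : LL N, anc d (LL N) z y) ↔ d ≤ y.nd.length := by
    intro d y
    constructor
    · rintro ⟨z, hz⟩
      rw [ll_anc_iff hN] at hz
      exact hz.1
    · intro hd
      refine ⟨⟨y.nd.take d, 0⟩, ?_⟩
      rw [ll_anc_iff hN]
      exact ⟨hd, rfl, rfl⟩
  have h3 : ∀ d, d ≤ (a i).nd.length ↔ d ≤ (b i).nd.length := by
    intro d
    rw [← key d, ← key d]
    exact (hfo d).iff h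
  exact le_antisymm ((h3 _).1 le_rfl) ((h3 _).2 le_rfl)

private theorem tak_aux (s t : List ℚ) (d : ℕ) (h : s.length < d) :
    s.take d = t.take d ↔ s.length = t.length ∧ s.take s.length = t.take s.length := by
  constructor
  · intro h1
    rw [List.take_of_length_le h.le] at h1
    have h2 : s.length = t.length := by
      have h3 := congrArg List.length h1
      rw [List.length_take] at h3
      omega
    refine ⟨h2, ?_⟩
    rw [List.take_of_length_le (by omega)] at h1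
    rw [h1]
  · rintro ⟨h1, h2⟩
    rw [List.take_of_length_le le_rfl, List.take_of_length_le (by omega)] at h2
    rw [h2]

private theorem tak_aux2 (hN : ∀ σ, N σ / 7 = σ.length) (h : SameType a b) (i j : Fin n) (d : ℕ)
    (h1 : d ≤ (a i).nd.length) (h2 : d ≤ (a j).nd.length) :
    (a i).nd.take d = (a j).nd.take d ↔ (b i).nd.take d = (b j).nd.take d := by
  have hfo : IsFO (fun (P : Type) [LE P] (v : Fin n → P) =>
      ∃ z : P, anc d P z (v i) ∧ anc d P z (v j)) :=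
    ((isFO_anc d (Sum.inr () : Fin n ⊕ Unit) (Sum.inl i)).and
      (isFO_anc d (Sum.inr ()) (Sum.inl j))).ex
  have key : ∀ (x y : LL N), d ≤ x.nd.length → d ≤ y.nd.length →
      ((∃ z : LL N, anc d (LL N) z x ∧ anc d (LL N) z y) ↔ x.nd.take d = y.nd.take d) := by
    intro x y hx hy
    constructor
    · rintro ⟨z, hz1, hz2⟩
      rw [ll_anc_iff hN] at hz1 hz2
      rw [← hz1.2.1, hz2.2.1]
    · intro hd
      refine ⟨⟨x.nd.take d, 0⟩, ?_, ?_⟩
      · rw [ll_anc_iff hN]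
        exact ⟨hx, rfl, rfl⟩
      · rw [ll_anc_iff hN]
        exact ⟨hy, hd, rfl⟩
  rw [← key _ _ h1 h2, ← key _ _ (by rw [← len_eq hN h i]; exact h1)
    (by rw [← len_eq hN h j]; exact h2)]
  exact hfo.iff h

theorem tak_iff (hN : ∀ σ, N σ / 7 = σ.length) (h : SameType a b) (i j : Fin n) (d : ℕ) :
    (a i).nd.take d = (a j).nd.take d ↔ (b i).nd.take d = (b j).nd.take d := by
  have hi := len_eq hN h i
  have hj := len_eq hN h j
  by_cases h1 : d ≤ (a i).nd.length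
  · by_cases h2 : d ≤ (a j).nd.length
    · exact tak_aux2 hN h i j d h1 h2
    · rw [eq_comm, tak_aux _ _ d (not_le.1 h2), eq_comm (a := (b i).nd.take d),
        tak_aux _ _ d (by rw [← hj]; exact not_le.1 h2), ← hi, ← hj]
      refine and_congr_right fun h3 => ?_
      exact tak_aux2 hN h j i _ le_rfl h3.le
  · rw [tak_aux _ _ d (not_le.1 h1), tak_aux _ _ d (by rw [← hi]; exact not_le.1 h1), ← hi, ← hj]
    refine and_congr_right fun h3 => ?_
    exact tak_aux2 hN h i j _ le_rfl h3.le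

end

end Pool.Agent.Work.MP_f1d084_lc.M
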