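import Mathlib
import Pool.Agent.Work.MP_f1d084_lc.M.Defs

set_option autoImplicit false

/-! MODULE Rel (S-M). The relations between the states. All by case distinctions on the states.

`den_cst`: `x ∈ den k (cst k b) ↔ b = true`, induction on `k` (`x ∈ den (k + 1) β` iff there is `i`
with `x ∉ den k (β i)`; provide this as `mem_den_succ`).
`wr_sim`: cases of `W = WR x r`, for `W a b` and a child `ch S a i`:
* `sp c`, `sp c`: the same child `i` (`c = c'`).
* `U c b`, `U c b'`: if `i % 3 ≠ 2` the same child `i`. If `i % 3 = 2` the child of `U c b` is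
  `E ones` (`b = true`) or `E (pat [])` (`b = false`). In the second case take the child `j = 3 * m`
  of `U c b'` with `dec m = []` (`dec` is surjective by `Encodable.encodek`). In the first case take
  `j = 3 * m` with `dec m = List.replicate (r + 2) true`: the bits `k ≤ r + 1` are all `1`.
* `E s`, `E s'`: the same `i`: `T i (s i)`, `T i (s' i)`: the bits agree if `i ≤ r + 1`; if
  `i > r + 1` and they differ then one of the two alternatives with `r < i`, `r + 1 < i` holds.
* `T (k + 1) β`, `T (k + 1) β'`: (α) the bits agree. The child is `T k (cst k true)` (take the same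
  child) or `T k (β j)`. If `x ∈ den k (β j)` take the child `T k (cst k true)` of the other one. If
  `x ∉ den k (β j)` then `x ∈ den (k + 1) β`, so `x ∈ den (k + 1) β'` and some `β' j'` does not
  contain `x`. (β) `x ∉ den β`, `x ∈ den β'`: every child of `T (k + 1) β` has the bit `1`: take the
  child `T k (cst k true)`. (γ) `x ∈ den β`, `x ∉ den β'`, `r + 1 < k + 1`: if the child has the bit
  `1` take `T k (cst k true)`; if it has the bit `0` take also `T k (cst k true)`: alternative
  (β) for `k`, since `r < k`.
* `T 0 β`, `T 0 β'`, `dead`, `dead`: the children are `dead`.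
`ra_sim`: the same for `RA` (without (β), (γ)), with `hA`: the child `E ones` of `U c true` is matched
with the child `E (S c d)` (`j = 3 * d + 1`) where `d` is given by `hA c`; the child `E (pat [])` of
`U c false` with `i % 3 = 2` is matched with `E (pat (dec m))`, `dec m = []`, as before.
The others are immediate. -/

namespace Pool.Agent.Work.MP_f1d084_lc.M

variable {X : Type} [TopologicalSpace X]

theorem mem_den_succ (x : X) (k : ℕ) (β : BC X (k + 1)) :
    x ∈ den (k + 1) β ↔ ∃ i, x ∉ den k (β i) := by
  simp only [den, Set.mem_iUnion, Set.mem_compl_iff]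

theorem mem_den_cst (x : X) (k : ℕ) (b : Bool) : x ∈ den k (cst k b) ↔ b = true := by
  induction k generalizing b with
  | zero => cases b <;> simp [den, cst]
  | succ k ih =>
    rw [mem_den_succ]
    simp only [cst]
    rw [ih]
    cases b <;> simp

theorem dec_surj (l : List Bool) : ∃ m, dec m = l := by
  refine ⟨Encodable.encode l, ?_⟩
  unfold dec
  rw [Encodable.encodek]
  rfl

private theorem mem_pat (x : X) (l : List Bool) (k : ℕ) :
    x ∈ den k (pat (X := X) l k) ↔ l.getD k false = true := by
  unfold pat
  rw [mem_den_cst]

private theorem mem_ones (x : X) (k : ℕ) : x ∈ den k (ones (X := X) k) := by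
  unfold ones
  rw [mem_den_cst]

theorem ra_refl (x : X) (a : St X) : RA x a a := by
  cases a <;> simp [RA]

theorem ra_symm (x : X) (a b : St X) (h : RA x a b) : RA x b a := by
  cases a <;> cases b <;> simp only [RA] at h ⊢
  · exact h.symm
  · exact h.symm
  · exact fun k => (h k).symm
  · exact ⟨h.1.symm, h.2.symm⟩

theorem ra_clr (x : X) (a b : St X) (h : RA x a b) : clr x a = clr x b := by
  cases a <;> cases b <;> simp only [RA] at h <;> try rfl
  rename_i k β k' β'
  obtain ⟨rfl, h2⟩ := h
  cases k with
  | zero =>
    simp only [clr]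
    by_cases h3 : x ∈ β.1
    · have h4 : x ∈ β'.1 := h2.1 h3
      rw [if_pos h3, if_pos h4]
    · have h4 : ¬ x ∈ β'.1 := fun h4 => h3 (h2.2 h4)
      rw [if_neg h3, if_neg h4]
  | succ k => rfl

theorem fr_refl (x : X) (r : ℕ) (a : St X) : FR x r a a := by
  cases a <;> simp [FR]

theorem fr_symm (x : X) (r : ℕ) (a b : St X) (h : FR x r a b) : FR x r b a := by
  cases a <;> cases b <;> simp only [FR] at h ⊢
  · exact h.symm
  · exact h.symm
  · exact fun k hk => (h k hk).symm
  · obtain ⟨rfl, h2 | h2⟩ := h
    · exact ⟨rfl, Or.inl h2.symm⟩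
    · exact ⟨rfl, Or.inr h2⟩

theorem fr_mono (x : X) (r : ℕ) (a b : St X) (h : FR x (r + 1) a b) : FR x r a b := by
  cases a <;> cases b <;> simp only [FR] at h ⊢
  · exact h
  · exact h
  · exact fun k hk => h k (by omega)
  · obtain ⟨h1, h2 | h2⟩ := h
    · exact ⟨h1, Or.inl h2⟩
    · exact ⟨h1, Or.inr (by omega)⟩

theorem fr_clr (x : X) (r : ℕ) (a b : St X) (h : FR x r a b) : clr x a = clr x b := by
  cases a <;> cases b <;> simp only [FR] at h <;> try rfl
  rename_i k β k' β'
  obtain ⟨rfl, h2⟩ := h
  cases k with
  | zero =>
    rcases h2 with h2 | h2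
    · simp only [clr]
      by_cases h3 : x ∈ β.1
      · have h4 : x ∈ β'.1 := h2.1 h3
        rw [if_pos h3, if_pos h4]
      · have h4 : ¬ x ∈ β'.1 := fun h4 => h3 (h2.2 h4)
        rw [if_neg h3, if_neg h4]
    · exact absurd h2 (Nat.not_lt_zero r)
  | succ k => rfl

theorem fr_wr (x : X) (r : ℕ) (a b : St X) (h : FR x (r + 1) a b) : WR x r a b := by
  cases a <;> cases b <;> simp only [FR, WR] at h ⊢
  · exact h
  · exact h
  · exact fun k hk => h k (by omega)
  · rename_i k β k' β'
    obtain ⟨rfl, h2 | h2⟩ := h
    · exact ⟨rfl, Or.inl h2⟩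
    · refine ⟨rfl, ?_⟩
      by_cases h3 : x ∈ den k β <;> by_cases h4 : x ∈ den k β'
      · exact Or.inl ⟨fun _ => h4, fun _ => h3⟩
      · exact Or.inr (Or.inr ⟨h3, h4, h2⟩)
      · exact Or.inr (Or.inl ⟨h3, h4, by omega⟩)
      · exact Or.inl ⟨fun h => absurd h h3, fun h => absurd h h4⟩

theorem wr_fr (x : X) (r : ℕ) (a b : St X) (h : WR x r a b) : FR x r a b := by
  cases a <;> cases b <;> simp only [FR, WR] at h ⊢
  · exact h
  · exact h
  · exact fun k hk => h k (by omega)
  · obtain ⟨h1, h2 | h2 | h2⟩ := h
    · exact ⟨h1, Or.inl h2⟩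
    · exact ⟨h1, Or.inr h2.2.2⟩
    · exact ⟨h1, Or.inr (by omega)⟩

variable (S : ℕ → ℕ → (k : ℕ) → BC X k)

theorem wr_sim (x : X) (r : ℕ) (a b : St X) (h : WR x r a b) (i : ℕ) :
    ∃ j, WR x r (ch S a i) (ch S b j) := by
  cases a with
  | sp c =>
    cases b with
    | sp c' =>
      simp only [WR] at h
      subst h
      exact ⟨i, fr_wr x r _ _ (fr_refl x (r + 1) _)⟩
    | U _ _ => exact h.elim
    | E _ => exact h.elim
    | T _ _ => exact h.elim
    | dead => exact h.elim
  | U c b1 =>
    cases b with
    | sp _ => exact h.elim
    | U c' b2 =>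
      simp only [WR] at h
      subst h
      by_cases h0 : i % 3 = 0
      · refine ⟨i, ?_⟩
        simp only [ch, if_pos h0]
        exact fr_wr x r _ _ (fr_refl x (r + 1) _)
      · by_cases h1 : i % 3 = 1
        · refine ⟨i, ?_⟩
          simp only [ch, if_neg h0, if_pos h1]
          exact fr_wr x r _ _ (fr_refl x (r + 1) _)
        · cases b1 with
          | true =>
            obtain ⟨m, hm⟩ := dec_surj (List.replicate (r + 2) true)
            refine ⟨3 * m, ?_⟩
            have e0 : (3 * m) % 3 = 0 := by omega
            have e1 : (3 * m) / 3 = m := by omega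
            simp only [ch, if_neg h0, if_neg h1, if_pos e0, e1, hm, if_true]
            intro k hk
            rw [mem_pat]
            have e2 : (List.replicate (r + 2) true).getD k false = true := by
              rw [List.getD_eq_getElem?_getD, List.getElem?_replicate, if_pos (by omega)]
              rfl
            exact ⟨fun _ => e2, fun _ => mem_ones x k⟩
          | false =>
            obtain ⟨m, hm⟩ := dec_surj []
            refine ⟨3 * m, ?_⟩
            have e0 : (3 * m) % 3 = 0 := by omega
            have e1 : (3 * m) / 3 = m := by omega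
            have e2 : ¬ (false = true) := by decide
            simp only [ch, if_neg h0, if_neg h1, if_pos e0, e1, hm, if_neg e2]
            exact fr_wr x r _ _ (fr_refl x (r + 1) _)
    | E _ => exact h.elim
    | T _ _ => exact h.elim
    | dead => exact h.elim
  | E s =>
    cases b with
    | sp _ => exact h.elim
    | U _ _ => exact h.elim
    | E s' =>
      simp only [WR] at h
      refine ⟨i, ?_⟩
      simp only [ch, WR]
      refine ⟨trivial, ?_⟩
      by_cases h1 : i ≤ r + 1
      · exact Or.inl (h i h1)
      · by_cases h3 : x ∈ den i (s i) <;> by_cases h4 : x ∈ den i (s' i)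
        · exact Or.inl ⟨fun _ => h4, fun _ => h3⟩
        · exact Or.inr (Or.inr ⟨h3, h4, by omega⟩)
        · exact Or.inr (Or.inl ⟨h3, h4, by omega⟩)
        · exact Or.inl ⟨fun h => absurd h h3, fun h => absurd h h4⟩
    | T _ _ => exact h.elim
    | dead => exact h.elim
  | T k β =>
    cases b with
    | sp _ => exact h.elim
    | U _ _ => exact h.elim
    | E _ => exact h.elim
    | T k' β' =>
      simp only [WR] at h
      obtain ⟨rfl, h⟩ := h
      cases k with
      | zero => exact ⟨0, trivial⟩
      | succ k =>
        have htop : x ∈ den k (cst k true) := (mem_den_cst x k true).2 rfl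
        have key : ∀ γ : BC X k, ch S (.T (k + 1) β) i = .T k γ → (x ∈ den k γ) →
            ∃ j, WR x r (ch S (.T (k + 1) β) i) (ch S (.T (k + 1) β') j) := by
          intro γ hγ hx
          refine ⟨0, ?_⟩
          rw [hγ]
          simp only [ch, if_true, WR]
          exact ⟨trivial, Or.inl ⟨fun _ => htop, fun _ => hx⟩⟩
        by_cases h0 : i = 0
        · exact key (cst k true) (by simp only [ch, if_pos h0]) htop
        · by_cases hx : x ∈ den k (β (i - 1))
          · exact key (β (i - 1)) (by simp only [ch, if_neg h0]) hx
          · have hin : x ∈ den (k + 1) β := (mem_den_succ x k β).2 ⟨_, hx⟩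
            rcases h with h | h | h
            · obtain ⟨j, hj⟩ := (mem_den_succ x k β').1 (h.1 hin)
              refine ⟨j + 1, ?_⟩
              have e1 : ¬ (j + 1 = 0) := by omega
              have e2 : j + 1 - 1 = j := by omega
              simp only [ch, if_neg h0, if_neg e1, e2, WR]
              exact ⟨trivial, Or.inl ⟨fun h => absurd h hx, fun h => absurd h hj⟩⟩
            · exact absurd hin h.1
            · refine ⟨0, ?_⟩
              simp only [ch, if_neg h0, if_true, WR]
              exact ⟨trivial, Or.inr (Or.inl ⟨hx, htop, by omega⟩)⟩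
    | dead => exact h.elim
  | dead =>
    cases b with
    | sp _ => exact h.elim
    | U _ _ => exact h.elim
    | E _ => exact h.elim
    | T _ _ => exact h.elim
    | dead => exact ⟨0, trivial⟩

theorem ra_sim (x : X) (hA : ∀ c, ∃ d, ∀ k, x ∈ den k (S c d k)) (a b : St X) (h : RA x a b)
    (i : ℕ) : ∃ j, RA x (ch S a i) (ch S b j) := by
  cases a with
  | sp c =>
    cases b with
    | sp c' =>
      simp only [RA] at h
      subst h
      exact ⟨i, ra_refl x _⟩
    | U _ _ => exact h.elim
    | E _ => exact h.elim
    | T _ _ => exact h.elim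
    | dead => exact h.elim
  | U c b1 =>
    cases b with
    | sp _ => exact h.elim
    | U c' b2 =>
      simp only [RA] at h
      subst h
      by_cases h0 : i % 3 = 0
      · refine ⟨i, ?_⟩
        simp only [ch, if_pos h0]
        exact ra_refl x _
      · by_cases h1 : i % 3 = 1
        · refine ⟨i, ?_⟩
          simp only [ch, if_neg h0, if_pos h1]
          exact ra_refl x _
        · cases b1 with
          | true =>
            obtain ⟨d, hd⟩ := hA c
            refine ⟨3 * d + 1, ?_⟩
            have e0 : ¬ ((3 * d + 1) % 3 = 0) := by omega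
            have e1 : (3 * d + 1) % 3 = 1 := by omega
            have e2 : (3 * d + 1) / 3 = d := by omega
            simp only [ch, if_neg h0, if_neg h1, if_neg e0, if_pos e1, e2, if_true]
            intro k
            exact ⟨fun _ => hd k, fun _ => mem_ones x k⟩
          | false =>
            obtain ⟨m, hm⟩ := dec_surj []
            refine ⟨3 * m, ?_⟩
            have e0 : (3 * m) % 3 = 0 := by omega
            have e1 : (3 * m) / 3 = m := by omega
            have e2 : ¬ (false = true) := by decide
            simp only [ch, if_neg h0, if_neg h1, if_pos e0, e1, hm, if_neg e2]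
            exact ra_refl x _
    | E _ => exact h.elim
    | T _ _ => exact h.elim
    | dead => exact h.elim
  | E s =>
    cases b with
    | sp _ => exact h.elim
    | U _ _ => exact h.elim
    | E s' =>
      simp only [RA] at h
      refine ⟨i, ?_⟩
      simp only [ch, RA]
      exact ⟨trivial, h i⟩
    | T _ _ => exact h.elim
    | dead => exact h.elim
  | T k β =>
    cases b with
    | sp _ => exact h.elim
    | U _ _ => exact h.elim
    | E _ => exact h.elim
    | T k' β' =>
      simp only [RA] at h
      obtain ⟨rfl, h⟩ := h
      cases k with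
      | zero => exact ⟨0, trivial⟩
      | succ k =>
        have htop : x ∈ den k (cst k true) := (mem_den_cst x k true).2 rfl
        have key : ∀ γ : BC X k, ch S (.T (k + 1) β) i = .T k γ → (x ∈ den k γ) →
            ∃ j, RA x (ch S (.T (k + 1) β) i) (ch S (.T (k + 1) β') j) := by
          intro γ hγ hx
          refine ⟨0, ?_⟩
          rw [hγ]
          simp only [ch, if_true, RA]
          exact ⟨trivial, ⟨fun _ => htop, fun _ => hx⟩⟩
        by_cases h0 : i = 0
        · exact key (cst k true) (by simp only [ch, if_pos h0]) htop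
        · by_cases hx : x ∈ den k (β (i - 1))
          · exact key (β (i - 1)) (by simp only [ch, if_neg h0]) hx
          · have hin : x ∈ den (k + 1) β := (mem_den_succ x k β).2 ⟨_, hx⟩
            obtain ⟨j, hj⟩ := (mem_den_succ x k β').1 (h.1 hin)
            refine ⟨j + 1, ?_⟩
            have e1 : ¬ (j + 1 = 0) := by omega
            have e2 : j + 1 - 1 = j := by omega
            simp only [ch, if_neg h0, if_neg e1, e2, RA]
            exact ⟨trivial, ⟨fun h => absurd h hx, fun h => absurd h hj⟩⟩
    | dead => exact h.elim
  | dead =>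
    cases b with
    | sp _ => exact h.elim
    | U _ _ => exact h.elim
    | E _ => exact h.elim
    | T _ _ => exact h.elim
    | dead => exact ⟨0, trivial⟩

end Pool.Agent.Work.MP_f1d084_lc.M
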