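import Mathlib
import Pool.Agent.Work.MP_f1d084_lc.M.Defs

set_option autoImplicit false

/-! MODULE Stp (S). Paths and simulations.

PROOFS. `run_append`: induction on `σ`. `clr_lt`: cases. `lab_div`: omega with `clr_lt`.
`sim_path`: induction on `ρ`: for `q :: ρ` choose `j` with `W (ch S a (col q)) (ch S b j)` and
`q'` with `col q' = j` (`col_dense 0 1`), then the induction hypothesis.
`step`: given `q`, `ρ`, `lo`, `hi`: by `hR` there is `j` with
`W (ch S (st S σ) (col q)) (ch S (st S τ) j)`. There is a rational `q'` above all elements of `lo`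
and below all elements of `hi` with `col q' = j`: choose rationals `u < v` with `lo < u`, `v < hi`
(e.g. `u0 = max lo` or `min hi - 1` ..., then the middle) and use `col_dense u v`. `sim_path`
for `ρ` gives `ρ'`. Then `st S (σ ++ q :: ρ.take k) = run S (ch S (st S σ) (col q)) (ρ.take k)`
by `run_append`. -/

namespace Pool.Agent.Work.MP_f1d084_lc.M

variable {X : Type} [TopologicalSpace X] (S : ℕ → ℕ → (k : ℕ) → BC X k)

theorem run_append (s : St X) (σ τ : List ℚ) : run S s (σ ++ τ) = run S (run S s σ) τ := by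
  induction σ generalizing s with
  | nil => rfl
  | cons q σ ih => exact ih _

theorem st_append_singleton (σ : List ℚ) (q : ℚ) :
    st S (σ ++ [q]) = ch S (st S σ) (col q) := by
  unfold st
  rw [run_append]
  rfl

theorem clr_lt (x : X) (s : St X) : clr x s < 7 := by
  cases s with
  | sp _ => simp only [clr]; norm_num
  | U _ _ => simp only [clr]; norm_num
  | E _ => simp only [clr]; norm_num
  | T k β =>
    cases k with
    | zero =>
      simp only [clr]
      split_ifs <;> norm_num
    | succ k => simp only [clr]; norm_num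
  | dead => simp only [clr]; norm_num

theorem lab_div (x : X) (σ : List ℚ) : lab S x σ / 7 = σ.length := by
  unfold lab
  have h := clr_lt x (st S σ)
  omega

theorem sim_path (W : St X → St X → Prop)
    (hW : ∀ a b, W a b → ∀ i, ∃ j, W (ch S a i) (ch S b j)) :
    ∀ (ρ : List ℚ) (a b : St X), W a b → ∃ ρ' : List ℚ, ρ'.length = ρ.length ∧
      ∀ k, W (run S a (ρ.take k)) (run S b (ρ'.take k)) := by
  intro ρ
  induction ρ with
  | nil =>
    intro a b h
    refine ⟨[], rfl, fun k => ?_⟩
    rw [List.take_nil]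
    exact h
  | cons q ρ ih =>
    intro a b h
    obtain ⟨j, hj⟩ := hW a b h (col q)
    obtain ⟨q', -, -, hq'⟩ := col_dense 0 1 one_pos j
    obtain ⟨ρ', h1, h2⟩ := ih _ _ hj
    refine ⟨q' :: ρ', by rw [List.length_cons, List.length_cons, h1], fun k => ?_⟩
    cases k with
    | zero => exact h
    | succ k =>
      rw [List.take_succ_cons, List.take_succ_cons]
      show W (run S (ch S a (col q)) (ρ.take k)) (run S (ch S b (col q')) (ρ'.take k))
      rw [hq']
      exact h2 k

private theorem between (lo hi : Finset ℚ) (hlh : ∀ x ∈ lo, ∀ y ∈ hi, x < y) (j : ℕ) :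
    ∃ q : ℚ, (∀ x ∈ lo, x < q) ∧ (∀ y ∈ hi, q < y) ∧ col q = j := by
  obtain ⟨u, v, huv, h1, h2⟩ : ∃ u v : ℚ, u < v ∧ (∀ x ∈ lo, x ≤ u) ∧ (∀ y ∈ hi, v ≤ y) := by
    rcases lo.eq_empty_or_nonempty with hl | hl
    · rcases hi.eq_empty_or_nonempty with hh | hh
      · subst hl
        subst hh
        exact ⟨0, 1, one_pos, fun x hx => absurd hx (Finset.notMem_empty x),
          fun x hx => absurd hx (Finset.notMem_empty x)⟩
      · subst hl
        exact ⟨hi.min' hh - 1, hi.min' hh, by linarith, fun x hx => absurd hx (Finset.notMem_empty x),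
          fun y hy => Finset.min'_le _ _ hy⟩
    · rcases hi.eq_empty_or_nonempty with hh | hh
      · subst hh
        exact ⟨lo.max' hl, lo.max' hl + 1, by linarith, fun x hx => Finset.le_max' _ _ hx,
          fun x hx => absurd hx (Finset.notMem_empty x)⟩
      · exact ⟨lo.max' hl, hi.min' hh, hlh _ (Finset.max'_mem _ _) _ (Finset.min'_mem _ _),
          fun x hx => Finset.le_max' _ _ hx, fun y hy => Finset.min'_le _ _ hy⟩
  obtain ⟨q, hq1, hq2, hq3⟩ := col_dense u v huv j
  exact ⟨q, fun x hx => (h1 x hx).trans_lt hq1, fun y hy => hq2.trans_le (h2 y hy), hq3⟩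

theorem step (R R' W : St X → St X → Prop)
    (hW : ∀ a b, W a b → ∀ i, ∃ j, W (ch S a i) (ch S b j))
    (hR : ∀ a b, R a b → ∀ i, ∃ j, W (ch S a i) (ch S b j))
    (hWR : ∀ a b, W a b → R' a b) (σ τ : List ℚ) (hl : σ.length = τ.length)
    (h : R (st S σ) (st S τ)) (q : ℚ) (ρ : List ℚ) (lo hi : Finset ℚ)
    (hlh : ∀ x ∈ lo, ∀ y ∈ hi, x < y) : ∃ (q' : ℚ) (ρ' : List ℚ), (∀ x ∈ lo, x < q') ∧
      (∀ y ∈ hi, q' < y) ∧ ρ'.length = ρ.length ∧
      ∀ k, (σ ++ q :: ρ.take k).length = (τ ++ q' :: ρ'.take k).length ∧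
        R' (st S (σ ++ q :: ρ.take k)) (st S (τ ++ q' :: ρ'.take k)) := by
  obtain ⟨j, hj⟩ := hR _ _ h (col q)
  obtain ⟨q', h1, h2, h3⟩ := between lo hi hlh j
  obtain ⟨ρ', h4, h5⟩ := sim_path S W hW ρ _ _ hj
  refine ⟨q', ρ', h1, h2, h4, fun k => ⟨?_, ?_⟩⟩
  · simp only [List.length_append, List.length_cons, List.length_take, hl, h4]
  · unfold st
    rw [run_append, run_append]
    apply hWR
    show W (run S (ch S (st S σ) (col q)) (ρ.take k)) (run S (ch S (st S τ) (col q')) (ρ'.take k))
    rw [h3]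
    exact h5 k

end Pool.Agent.Work.MP_f1d084_lc.M
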