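import Mathlib
import Pool.Agent.Work.MP_f1d084_lc.M.Defs
import Pool.Agent.Work.MP_f1d084_lc.M.Dfb
import Pool.Agent.Work.MP_f1d084_lc.M.Rel
import Pool.Agent.Work.MP_f1d084_lc.M.Stp

set_option autoImplicit false

namespace Pool.Agent.Work.MP_f1d084_lc.M

variable {X : Type} [TopologicalSpace X] (S : ℕ → ℕ → (k : ℕ) → BC X k)

private theorem st_len (σ : List ℚ) : (∀ c, st S σ = .sp c → σ.length = c) ∧
    (∀ c b, st S σ = .U c b → σ.length = c + 1) := by
  induction σ using List.reverseRecOn with
  | nil =>
    constructor
    · intro c h
      have h1 : (St.sp 0 : St X) = .sp c := h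
      injection h1
    · intro c b h
      have h1 : (St.sp 0 : St X) = .U c b := h
      cases h1
  | append_singleton σ q ih =>
    rw [st_append_singleton]
    rw [List.length_append, List.length_singleton]
    cases h : st S σ with
    | sp c' =>
      have h1 := ih.1 c' h
      have h2 : ch S (.sp c') (col q) = if col q = 0 then .sp (c' + 1) else
        .U c' (decide (col q = 1)) := rfl
      rw [h2]
      constructor
      · intro c hc
        split_ifs at hc
        injection hc with hc
        omega
      · intro c b hc
        split_ifs at hc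
        injection hc with hc
        omega
    | U c' b' =>
      have h2 : ch S (.U c' b') (col q) = if col q % 3 = 0 then .E (pat (dec (col q / 3))) else
        if col q % 3 = 1 then .E (S c' (col q / 3)) else
          if b' = true then .E ones else .E (pat []) := rfl
      rw [h2]
      constructor
      · intro c hc
        split_ifs at hc
      · intro c b hc
        split_ifs at hc
    | E s =>
      have h2 : ch S (.E s) (col q) = .T (col q) (s (col q)) := rfl
      rw [h2]
      constructor
      · intro c hc
        cases hc
      · intro c b hc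
        cases hc
    | T k β =>
      cases k with
      | zero =>
        have h2 : ch S (.T 0 β) (col q) = .dead := rfl
        rw [h2]
        constructor
        · intro c hc
          cases hc
        · intro c b hc
          cases hc
      | succ k =>
        have h2 : ch S (.T (k + 1) β) (col q) = if col q = 0 then .T k (cst k true) else
          .T k (β (col q - 1)) := rfl
        rw [h2]
        constructor
        · intro c hc
          split_ifs at hc
        · intro c b hc
          split_ifs at hc
    | dead =>
      have h2 : ch S .dead (col q) = .dead := rfl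
      rw [h2]
      constructor
      · intro c hc
        cases hc
      · intro c b hc
        cases hc

theorem st_sp (σ : List ℚ) (c : ℕ) (h : st S σ = .sp c) : σ.length = c := (st_len S σ).1 c h

theorem st_U (σ : List ℚ) (c : ℕ) (b : Bool) (h : st S σ = .U c b) : σ.length = c + 1 :=
  (st_len S σ).2 c b h

theorem dfn_clr (x : X) (d c : ℕ) : Dfn (lab S x) d (fun σ => clr x (st S σ) = c) := by
  refine (Dfn.lab d (7 * d + c)).congr fun σ hσ => ?_
  unfold lab
  rw [hσ]
  omega

private theorem clr_two (x : X) (s : St X) (h : clr x s = 2) : ∃ k β, s = .T (k + 1) β := by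
  cases s with
  | sp c => simp [clr] at h
  | U c b => simp [clr] at h
  | E s => simp [clr] at h
  | T k β =>
    cases k with
    | zero =>
      exfalso
      simp only [clr] at h
      split_ifs at h <;> omega
    | succ k => exact ⟨k, β, rfl⟩
  | dead => simp [clr] at h

open Classical in
private theorem clr_le_one (x : X) (s : St X) (v : Bool) :
    clr x s = v.toNat ↔ ∃ β : BC X 0, s = .T 0 β ∧ (x ∈ den 0 β ↔ v = true) := by
  constructor
  · intro h
    cases s with
    | sp c => cases v <;> simp [clr] at h
    | U c b => cases v <;> simp [clr] at h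
    | E s => cases v <;> simp [clr] at h
    | T k β =>
      cases k with
      | zero =>
        refine ⟨β, rfl, ?_⟩
        have h1 : clr x (St.T 0 β) = if x ∈ β.1 then 1 else 0 := by simp only [clr]
        rw [h1] at h
        show x ∈ β.1 ↔ v = true
        by_cases hx : x ∈ β.1
        · rw [if_pos hx] at h
          cases v
          · simp at h
          · simp [hx]
        · rw [if_neg hx] at h
          cases v
          · simp [hx]
          · simp at h
      | succ k => cases v <;> simp [clr] at h
    | dead => cases v <;> simp [clr] at h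
  · rintro ⟨β, rfl, h⟩
    have h1 : clr x (St.T 0 β) = if x ∈ β.1 then 1 else 0 := by simp only [clr]
    rw [h1]
    have h2 : x ∈ β.1 ↔ v = true := h
    by_cases hx : x ∈ β.1
    · rw [if_pos hx, h2.mp hx]
      rfl
    · rw [if_neg hx]
      cases v
      · rfl
      · exact absurd (h2.mpr rfl) hx

private theorem exists_col' (j : ℕ) : ∃ q : ℚ, col q = j := by
  obtain ⟨q, -, -, h⟩ := col_dense 0 1 one_pos j
  exact ⟨q, h⟩

private theorem T_unique {k k' : ℕ} {β : BC X k} {β' : BC X k'} (h : (St.T k β : St X) = .T k' β') :
    ∃ h' : k = k', h' ▸ β = β' := by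
  injection h with h1 h2
  subst h1
  exact ⟨rfl, eq_of_heq h2⟩

theorem dfn_T (x : X) (k : ℕ) : ∀ (v : Bool) (d : ℕ), Dfn (lab S x) d
    (fun σ => ∃ β : BC X k, st S σ = .T k β ∧ (x ∈ den k β ↔ v = true)) := by
  induction k with
  | zero =>
    intro v d
    exact (dfn_clr S x d v.toNat).congr fun σ _ => clr_le_one x _ v
  | succ k ih =>
    -- the children of a node with state `T (k' + 1) β`
    have hchild : ∀ (σ : List ℚ) (k' : ℕ) (β : BC X (k' + 1)), st S σ = .T (k' + 1) β →
        ∀ v : Bool, (∃ q : ℚ, ∃ γ : BC X k, st S (σ ++ [q]) = .T k γ ∧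
          (x ∈ den k γ ↔ v = true)) → k' = k := by
      rintro σ k' β hσ v ⟨q, γ, hq, -⟩
      rw [st_append_singleton, hσ] at hq
      have h2 : ch S (.T (k' + 1) β) (col q) = if col q = 0 then .T k' (cst k' true) else
          .T k' (β (col q - 1)) := rfl
      rw [h2] at hq
      split_ifs at hq
      · exact (T_unique hq).1
      · exact (T_unique hq).1
    have htrue : ∀ (σ : List ℚ) (β : BC X (k + 1)), st S σ = .T (k + 1) β →
        ∃ q : ℚ, ∃ γ : BC X k, st S (σ ++ [q]) = .T k γ ∧ (x ∈ den k γ ↔ true = true) := by
      intro σ β hσ
      obtain ⟨q, hq⟩ := exists_col' 0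
      refine ⟨q, cst k true, ?_, ?_⟩
      · rw [st_append_singleton, hσ, hq]
        rfl
      · rw [mem_den_cst]
    have hfalse : ∀ (σ : List ℚ) (β : BC X (k + 1)), st S σ = .T (k + 1) β →
        ((∃ q : ℚ, ∃ γ : BC X k, st S (σ ++ [q]) = .T k γ ∧ (x ∈ den k γ ↔ false = true)) ↔
          x ∈ den (k + 1) β) := by
      intro σ β hσ
      rw [mem_den_succ]
      constructor
      · rintro ⟨q, γ, hq, hγ⟩
        rw [st_append_singleton, hσ] at hq
        have h2 : ch S (.T (k + 1) β) (col q) = if col q = 0 then .T k (cst k true) else
            .T k (β (col q - 1)) := rfl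
        rw [h2] at hq
        split_ifs at hq with h3
        · obtain ⟨h4, h5⟩ := T_unique hq
          have h6 : cst k true = γ := h5
          exfalso
          have h7 := hγ.mp (by rw [← h6, mem_den_cst])
          simp at h7
        · obtain ⟨h4, h5⟩ := T_unique hq
          have h6 : β (col q - 1) = γ := h5
          refine ⟨col q - 1, fun h8 => ?_⟩
          have h7 := hγ.mp (by rw [← h6]; exact h8)
          simp at h7
      · rintro ⟨i, hi⟩
        obtain ⟨q, hq⟩ := exists_col' (i + 1)
        refine ⟨q, β i, ?_, ?_⟩
        · rw [st_append_singleton, hσ, hq]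
          rfl
        · exact ⟨fun h => absurd h hi, fun h => by simp at h⟩
    intro v d
    have hT := (ih true (d + 1)).ex (lab_div S x)
    have hF := (ih false (d + 1)).ex (lab_div S x)
    cases v with
    | true =>
      refine ((dfn_clr S x d 2).and hF).congr fun σ _ => ?_
      constructor
      · rintro ⟨h1, h2⟩
        obtain ⟨k', β, hσ⟩ := clr_two x _ h1
        have h3 := hchild σ k' β hσ false h2
        subst h3
        exact ⟨β, hσ, by simp [(hfalse σ β hσ).mp h2]⟩
      · rintro ⟨β, hσ, h⟩
        refine ⟨by rw [hσ]; simp [clr], (hfalse σ β hσ).mpr (h.mpr rfl)⟩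
    | false =>
      refine ((dfn_clr S x d 2).and (hT.and hF.not)).congr fun σ _ => ?_
      constructor
      · rintro ⟨h1, h2, h3⟩
        obtain ⟨k', β, hσ⟩ := clr_two x _ h1
        have h4 := hchild σ k' β hσ true h2
        subst h4
        refine ⟨β, hσ, ?_⟩
        rw [hfalse σ β hσ] at h3
        simp [h3]
      · rintro ⟨β, hσ, h⟩
        refine ⟨by rw [hσ]; simp [clr], htrue σ β hσ, ?_⟩
        rw [hfalse σ β hσ]
        intro h5
        have := h.mp h5
        simp at this

theorem dfn_E (x : X) (k d : ℕ) : Dfn (lab S x) d
    (fun σ => ∃ s : (k : ℕ) → BC X k, st S σ = .E s ∧ x ∈ den k (s k)) := by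
  refine ((dfn_clr S x d 3).and ((dfn_T S x k true (d + 1)).ex (lab_div S x))).congr
    fun σ _ => ?_
  constructor
  · rintro ⟨h1, q, γ, hq, hγ⟩
    cases h : st S σ with
    | sp c => rw [h] at h1; simp [clr] at h1
    | U c b => rw [h] at h1; simp [clr] at h1
    | E s =>
      refine ⟨s, rfl, ?_⟩
      rw [st_append_singleton, h] at hq
      have h2 : ch S (.E s) (col q) = .T (col q) (s (col q)) := rfl
      rw [h2] at hq
      obtain ⟨h3, h4⟩ := T_unique hq
      subst h3
      have h5 : s (col q) = γ := h4
      rw [h5]
      exact hγ.mpr rfl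
    | T k' β =>
      rw [h] at h1
      cases k' with
      | zero =>
        exfalso
        simp only [clr] at h1
        split_ifs at h1 <;> omega
      | succ k' => simp [clr] at h1
    | dead => rw [h] at h1; simp [clr] at h1
  · rintro ⟨s, hs, hx⟩
    refine ⟨by rw [hs]; simp [clr], ?_⟩
    obtain ⟨q, hq⟩ := exists_col' k
    refine ⟨q, s k, ?_, by simp [hx]⟩
    rw [st_append_singleton, hs, hq]
    rfl

theorem ra_of_eqv (x : X) (σ τ : List ℚ) (h : Eqv (lab S x) σ τ) :
    RA x (st S σ) (st S τ) := by
  obtain ⟨hl, hQ⟩ := h
  have hc : clr x (st S τ) = clr x (st S σ) :=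
    (hQ _ (dfn_clr S x σ.length (clr x (st S σ)))).mp rfl
  cases h : st S σ with
  | sp c =>
    rw [h] at hc
    cases h' : st S τ with
    | sp c' =>
      show c = c'
      rw [← st_sp S σ c h, ← st_sp S τ c' h', hl]
    | U c' b => rw [h'] at hc; simp [clr] at hc
    | E s => rw [h'] at hc; simp [clr] at hc
    | T k β =>
      rw [h'] at hc
      cases k with
      | zero =>
        exfalso
        simp only [clr] at hc
        split_ifs at hc <;> omega
      | succ k => simp [clr] at hc
    | dead => rw [h'] at hc; simp [clr] at hc
  | U c b =>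
    rw [h] at hc
    cases h' : st S τ with
    | sp c' => rw [h'] at hc; simp [clr] at hc
    | U c' b' =>
      show c = c'
      have h1 := st_U S σ c b h
      have h2 := st_U S τ c' b' h'
      omega
    | E s => rw [h'] at hc; simp [clr] at hc
    | T k β =>
      rw [h'] at hc
      cases k with
      | zero =>
        exfalso
        simp only [clr] at hc
        split_ifs at hc <;> omega
      | succ k => simp [clr] at hc
    | dead => rw [h'] at hc; simp [clr] at hc
  | E s =>
    rw [h] at hc
    cases h' : st S τ with
    | sp c' => rw [h'] at hc; simp [clr] at hc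
    | U c' b' => rw [h'] at hc; simp [clr] at hc
    | E s' =>
      intro k
      have h1 := hQ _ (dfn_E S x k σ.length)
      simp only [h, h'] at h1
      constructor
      · intro hx
        obtain ⟨s'', h2, h3⟩ := h1.mp ⟨s, rfl, hx⟩
        injection h2 with h2
        rw [h2]
        exact h3
      · intro hx
        obtain ⟨s'', h2, h3⟩ := h1.mpr ⟨s', rfl, hx⟩
        injection h2 with h2
        rw [h2]
        exact h3
    | T k β =>
      rw [h'] at hc
      cases k with
      | zero =>
        exfalso
        simp only [clr] at hc
        split_ifs at hc <;> omega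
      | succ k => simp [clr] at hc
    | dead => rw [h'] at hc; simp [clr] at hc
  | T k β =>
    classical
    have h1 := (hQ _ (dfn_T S x k (decide (x ∈ den k β)) σ.length)).mp
      ⟨β, h, by simp⟩
    obtain ⟨β', h2, h3⟩ := h1
    rw [h2]
    refine ⟨rfl, ?_⟩
    rw [h3]
    simp
  | dead =>
    rw [h] at hc
    cases h' : st S τ with
    | sp c' => rw [h'] at hc; simp [clr] at hc
    | U c' b => rw [h'] at hc; simp [clr] at hc
    | E s => rw [h'] at hc; simp [clr] at hc
    | T k β =>
      rw [h'] at hc
      cases k with
      | zero =>
        exfalso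
        simp only [clr] at hc
        split_ifs at hc <;> omega
      | succ k => simp [clr] at hc
    | dead => trivial

end Pool.Agent.Work.MP_f1d084_lc.M
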