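import Mathlib
import Pool.Agent.Work.MP_f1d084_lc.M.Defs
import Pool.Agent.Work.MP_f1d084_lc.M.Rel

set_option autoImplicit false

namespace Pool.Agent.Work.MP_f1d084_lc.M

variable {X : Type} [TopologicalSpace X]

private theorem lift_succ (k : ℕ) : ∀ β : BC X k, ∃ γ : BC X (k + 1), den (k + 1) γ = den k β := by
  induction k with
  | zero =>
    intro β
    refine ⟨fun _ => (⟨(β.1)ᶜ, β.2.compl⟩ : {s : Set X // IsClopen s}), ?_⟩
    show (⋃ _ : ℕ, ((β.1)ᶜ)ᶜ) = β.1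
    rw [Set.iUnion_const, compl_compl]
  | succ k ih =>
    intro β
    choose γ hγ using fun i => ih (β i)
    refine ⟨γ, ?_⟩
    show (⋃ i, (den (k + 1) (γ i))ᶜ) = ⋃ i, (den k (β i))ᶜ
    simp only [hγ]

theorem code_lift (k m : ℕ) (hkm : k ≤ m) (β : BC X k) : ∃ γ : BC X m, den m γ = den k β := by
  induction hkm with
  | refl => exact ⟨β, rfl⟩
  | step _ ih =>
    obtain ⟨γ, hγ⟩ := ih
    obtain ⟨γ', hγ'⟩ := lift_succ _ γ
    exact ⟨γ', hγ'.trans hγ⟩

theorem codes_inter (B : ℕ → Set X) (hB : ∀ k, ∃ (n : ℕ) (β : BC X n), den n β = B k) :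
    ∃ s : (k : ℕ) → BC X k, ∀ x, x ∈ ⋂ k, B k ↔ ∀ k, x ∈ den k (s k) := by
  classical
  choose n β hβ using hB
  have hs : ∀ m : ℕ, ∃ γ : BC X m, (m.unpair.2 = n m.unpair.1 → den m γ = B m.unpair.1) ∧
      (m.unpair.2 ≠ n m.unpair.1 → den m γ = Set.univ) := by
    intro m
    by_cases h : m.unpair.2 = n m.unpair.1
    · have h1 : n m.unpair.1 ≤ m := by
        rw [← h]
        exact Nat.unpair_right_le m
      obtain ⟨γ, hγ⟩ := code_lift _ m h1 (β m.unpair.1)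
      exact ⟨γ, fun _ => hγ.trans (hβ _), fun h' => absurd h h'⟩
    · refine ⟨cst m true, fun h' => absurd h' h, fun _ => ?_⟩
      ext x
      simp [mem_den_cst]
  choose s hs1 hs2 using hs
  refine ⟨s, fun x => ?_⟩
  rw [Set.mem_iInter]
  constructor
  · intro h m
    by_cases hm : m.unpair.2 = n m.unpair.1
    · rw [hs1 m hm]
      exact h _
    · rw [hs2 m hm]
      trivial
  · intro h k
    have h1 := h (Nat.pair k (n k))
    rw [hs1 _ (by rw [Nat.unpair_pair]), Nat.unpair_pair] at h1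
    exact h1

variable (hX : ∃ b : ℕ → Set X, (∀ n, IsClopen (b n)) ∧
  TopologicalSpace.IsTopologicalBasis (Set.range b))
include hX

theorem code_open (A : Set X) (hA : IsOpen A) : ∃ β : BC X 1, den 1 β = A := by
  classical
  obtain ⟨b, hb, hbasis⟩ := hX
  have hV : ∀ i : ℕ, ∃ β : BC X 0, den 0 β = (if b i ⊆ A then b i else ∅)ᶜ := by
    intro i
    by_cases h : b i ⊆ A
    · rw [if_pos h]
      exact ⟨⟨(b i)ᶜ, (hb i).compl⟩, rfl⟩
    · rw [if_neg h]
      exact ⟨⟨∅ᶜ, isClopen_empty.compl⟩, rfl⟩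
  choose β hβ using hV
  refine ⟨β, ?_⟩
  show (⋃ i, (den 0 (β i))ᶜ) = A
  ext x
  simp only [hβ, compl_compl, Set.mem_iUnion]
  constructor
  · rintro ⟨i, hi⟩
    by_cases h : b i ⊆ A
    · rw [if_pos h] at hi
      exact h hi
    · rw [if_neg h] at hi
      exact absurd hi (Set.notMem_empty x)
  · intro hx
    obtain ⟨_, ⟨i, rfl⟩, hi1, hi2⟩ := hbasis.exists_subset_of_mem_open hx hA
    exact ⟨i, by rw [if_pos hi2]; exact hi1⟩

theorem code_Sg (n : ℕ) : ∀ A : Set X, Sg n A → ∃ β : BC X (n + 1), den (n + 1) β = A := by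
  induction n with
  | zero => exact fun A hA => code_open hX A hA
  | succ n ih =>
    rintro A ⟨B, hB, rfl⟩
    choose γ hγ using fun i => ih (B i) (hB i)
    refine ⟨γ, ?_⟩
    show (⋃ i, (den (n + 1) (γ i))ᶜ) = ⋃ i, (B i)ᶜ
    simp only [hγ]

theorem codes_of_PiW2 (A : Set X) (hA : PiW2 A) : ∃ S : ℕ → ℕ → (k : ℕ) → BC X k,
    ∀ x, x ∈ A ↔ ∀ c, ∃ d, ∀ k, x ∈ den k (S c d k) := by
  obtain ⟨B, hB, rfl⟩ := hA
  have h : ∀ c d, ∃ s : (k : ℕ) → BC X k, ∀ x, x ∈ ⋂ k, B c d k ↔ ∀ k, x ∈ den k (s k) := by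
    intro c d
    refine codes_inter (B c d) fun k => ?_
    obtain ⟨n, hn⟩ := hB c d k
    obtain ⟨β, hβ⟩ := code_Sg hX n _ hn
    exact ⟨n + 1, β, hβ⟩
  choose S hS using h
  refine ⟨S, fun x => ?_⟩
  rw [Set.mem_iInter]
  refine forall_congr' fun c => ?_
  rw [Set.mem_iUnion]
  exact exists_congr fun d => hS c d x

end Pool.Agent.Work.MP_f1d084_lc.M
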