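import Mathlib
import Pool.Agent.Work.MP_f1d084_lc.Sp1
import Pool.Agent.Work.MP_f1d084_lc.Spl2
import Pool.Agent.Work.MP_f1d084_lc.Uni6

set_option autoImplicit false

namespace Pool.Agent.Work.MP_f1d084_lc.M

private theorem tpk_spl {P : Type} [PartialOrder P] (r : ℕ) : ∀ (n : ℕ) (a b : Fin n → P)
    (u : Fin n → Bool), tpk r n a = tpk r n b →
      tpk r n (fun i => (⟨a i, u i⟩ : Spl P)) = tpk r n (fun i => (⟨b i, u i⟩ : Spl P)) := by
  induction r with
  | zero =>
    intro n a b u h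
    have h1 : ∀ i j, (a i ≤ a j ↔ b i ≤ b j) := fun i j => Iff.of_eq (congrFun (congrFun h i) j)
    have h2 : ∀ i j, (a i = a j ↔ b i = b j) := by
      intro i j
      rw [le_antisymm_iff, le_antisymm_iff, h1, h1]
    refine funext fun i => funext fun j => propext ?_
    show (⟨a i, u i⟩ : Spl P) ≤ ⟨a j, u j⟩ ↔ (⟨b i, u i⟩ : Spl P) ≤ ⟨b j, u j⟩
    rw [spl_le_iff, spl_le_iff, Spl.ext_iff, Spl.ext_iff]
    simp only [h1, h2]
  | succ r ih =>
    have key : ∀ (n : ℕ) (a b : Fin n → P) (u : Fin n → Bool), tpk (r + 1) n a = tpk (r + 1) n b →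
        ∀ t, (∃ x, tpk r (n + 1) (snc (fun i => (⟨a i, u i⟩ : Spl P)) x) = t) →
          ∃ x, tpk r (n + 1) (snc (fun i => (⟨b i, u i⟩ : Spl P)) x) = t := by
      rintro n a b u h t ⟨⟨p, v⟩, rfl⟩
      have h1 : tpk r (n + 1) (snc a p) ∈ hasT (tpk (r + 1) n a) := ⟨p, rfl⟩
      rw [h] at h1
      obtain ⟨q, hq⟩ := h1
      refine ⟨⟨q, v⟩, ?_⟩
      have h2 := ih (n + 1) (snc b q) (snc a p) (snc u v) hq
      have h3 : ∀ (c : Fin n → P) (z : P), (fun i => (⟨snc c z i, snc u v i⟩ : Spl P)) =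
          snc (fun i => (⟨c i, u i⟩ : Spl P)) ⟨z, v⟩ := by
        intro c z
        funext i
        refine Fin.lastCases ?_ (fun i => ?_) i
        · rw [snc_last, snc_last, snc_last]
        · rw [snc_castSucc, snc_castSucc, snc_castSucc]
      rw [h3, h3] at h2
      exact h2
    intro n a b u h
    exact Set.ext fun t => ⟨key n a b u h t, key n b a u h.symm t⟩

theorem elemHomog_spl_iff {P : Type} [PartialOrder P] [Nonempty P] :
    ElemHomog (Spl P) ↔ ElemHomog P := by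
  refine ⟨fun h n a b hab => ?_, spl_elemHomog⟩
  let _ : PartialOrder (Spl P) :=
    { le_refl := spl_refl
      le_trans := spl_trans
      le_antisymm := spl_antisymm }
  have : Nonempty (Spl P) := ⟨⟨Classical.arbitrary P, false⟩⟩
  have h1 : SameType (fun i => (⟨a i, false⟩ : Spl P)) (fun i => (⟨b i, false⟩ : Spl P)) := by
    rw [sameType_iff]
    intro k
    exact tpk_spl k n a b (fun _ => false) ((sameType_iff a b).mp hab k)
  obtain ⟨f, hf⟩ := h n _ _ h1
  obtain ⟨g, hg⟩ := spl_iso f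
  refine ⟨g, fun i => ?_⟩
  have h2 := hf i
  rw [hg] at h2
  exact congrArg Spl.pt h2

theorem exists_splCode : ∃ h : Code → Code, Continuous h ∧
    ∀ R : Code, Nonempty (OfCode (h R) ≃o Spl (OfCode R)) :=
  ⟨bcode, continuous_bcode, fun R => ⟨bcodeIso R⟩⟩

end Pool.Agent.Work.MP_f1d084_lc.M
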