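import Mathlib
import Pool.Agent.Work.MP_f1d084_lc.M.Defs
import Pool.Agent.Work.MP_f1d084_lc.M.Cov
import Pool.Agent.Work.MP_f1d084_lc.M.Dfb

set_option autoImplicit false

/-! MODULE Typ (M). What the type of a tuple determines.

PROOF. Let `σ = (a i).nd`, `τ = (b i).nd`. By `len_eq` they have the same length `l`.
`N σ = N τ`: `dfn_iff` with `Dfn.lab l (N σ)` and `d = l` (`List.take_length`).
Positions: if `(a i).ps ≤ N σ` then `pre (a i).ps (a i)` (`ll_pre_iff`), which is first-order
(`isFO_pre`), so `pre (a i).ps (b i)` and `(b i).ps = (a i).ps`. If `(a i).ps > N σ` then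
`(b i).ps > N τ` as well (otherwise the first case for `b`), and with `k = (a i).ps - N σ - 1` we
have `suc k (a i)`, hence `suc k (b i)` (`isFO_suc`), i.e. `(b i).ps + k = N τ` (impossible) or
`(b i).ps = N τ + 1 + k = (a i).ps`.
`Good (Eqv N) (zp a b)`: the elements of `zp a b` are the pair of roots and the pairs
`((a i).nd, (b i).nd)`. `len`: `len_eq`. `rel`: for the root `take k [] = []` and `Eqv` is
reflexive; for the pair `i` and `k ≥ l` the lists are `σ`, `τ`, for `k < l` the initial segments of
length `k`: `Eqv` says same length (clear) and the same definable properties: `dfn_iff`.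
(So put `d = min k l`, `take k σ = take d σ`.) `tak`: `tak_iff`; for the root:
`[] = take k σ` iff `k = 0` or `l = 0`. `ord`: for the root: `[] < σ` iff `l ≠ 0`, `σ < []` never.
For `i`, `j`: `(a i).nd < (a j).nd` iff `(a i).nd ≠ (a j).nd` and `a i ≤ a j` (`ll_le_iff`, and
`≤` is preserved by `SameType.iff_le`), and `(a i).nd = (a j).nd` iff the same for `b` by
`tak_iff` with a large `k`. -/

namespace Pool.Agent.Work.MP_f1d084_lc.M

variable {N : List ℚ → ℕ}

private theorem nN_eq (hN : ∀ σ, N σ / 7 = σ.length) {n : ℕ} {a b : Fin n → LL N}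
    (h : SameType a b) (i : Fin n) : N (a i).nd = N (b i).nd := by
  have hl := len_eq hN h i
  have h1 := dfn_iff hN h (Dfn.lab (N := N) (a i).nd.length (N (a i).nd)) i le_rfl hl.le
  have h2 : (a i).nd.take (a i).nd.length = (a i).nd := List.take_length
  have h3 : (b i).nd.take (a i).nd.length = (b i).nd := by
    rw [hl]
    exact List.take_length
  rw [h2, h3] at h1
  exact (h1.1 rfl).symm

private theorem ps_eq (hN : ∀ σ, N σ / 7 = σ.length) {n : ℕ} {a b : Fin n → LL N}
    (h : SameType a b) (i : Fin n) : (a i).ps = (b i).ps := by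
  have hn := nN_eq hN h i
  have key : ∀ (c d : Fin n → LL N), SameType c d → (c i).ps ≤ N (c i).nd → (c i).ps = (d i).ps := by
    intro c d hcd h1
    have h2 : pre (c i).ps (LL N) (c i) := (ll_pre_iff _ _).2 ⟨rfl, h1⟩
    have h3 : pre (c i).ps (LL N) (d i) := ((isFO_pre (c i).ps i).iff hcd).1 h2
    exact ((ll_pre_iff _ _).1 h3).1.symm
  by_cases h1 : (a i).ps ≤ N (a i).nd
  · exact key a b h h1
  · have h2 : suc ((a i).ps - N (a i).nd - 1) (LL N) (a i) :=
      (ll_suc_iff _ _).2 (Or.inr (by omega))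
    have h3 : suc ((a i).ps - N (a i).nd - 1) (LL N) (b i) := ((isFO_suc _ i).iff h).1 h2
    rcases (ll_suc_iff _ _).1 h3 with h4 | h4
    · exact (key b a h.symm (by omega)).symm
    · omega

private theorem nd_eq_iff (hN : ∀ σ, N σ / 7 = σ.length) {n : ℕ} {a b : Fin n → LL N}
    (h : SameType a b) (i j : Fin n) : (a i).nd = (a j).nd ↔ (b i).nd = (b j).nd := by
  have hi := len_eq hN h i
  have hj := len_eq hN h j
  have h1 := tak_iff hN h i j (max (a i).nd.length (a j).nd.length)
  rw [List.take_of_length_le (le_max_left _ _), List.take_of_length_le (le_max_right _ _),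
    List.take_of_length_le (by rw [← hi]; exact le_max_left _ _),
    List.take_of_length_le (by rw [← hj]; exact le_max_right _ _)] at h1
  exact h1

private theorem nd_lt_iff {n : ℕ} (a : Fin n → LL N) (i j : Fin n) :
    (a i).nd < (a j).nd ↔ a i ≤ a j ∧ (a i).nd ≠ (a j).nd := by
  constructor
  · intro h
    exact ⟨(ll_le_iff _ _).2 (Or.inl h), h.ne⟩
  · rintro ⟨h1, h2⟩
    rcases (ll_le_iff _ _).1 h1 with h3 | h3
    · exact h3
    · exact absurd h3.1 h2

private theorem nil_lt (σ : List ℚ) : [] < σ ↔ σ.length ≠ 0 := by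
  constructor
  · intro h h1
    rw [List.length_eq_zero_iff] at h1
    rw [h1] at h
    exact lt_irrefl _ h
  · intro h
    obtain ⟨q, ρ, rfl⟩ := List.exists_cons_of_ne_nil (fun h1 => h (List.length_eq_zero_iff.2 h1))
    exact (list_lt_iff _ _).2 (Or.inl ⟨q, ρ, rfl⟩)

private theorem not_lt_nil' (σ : List ℚ) : ¬ σ < [] := by
  intro h
  by_cases h1 : σ.length = 0
  · rw [List.length_eq_zero_iff] at h1
    rw [h1] at h
    exact lt_irrefl _ h
  · exact lt_asymm h ((nil_lt σ).2 h1)

theorem good_of_sameType (hN : ∀ σ, N σ / 7 = σ.length) {n : ℕ} (a b : Fin n → LL N)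
    (h : SameType a b) : (∀ i, (a i).ps = (b i).ps) ∧ Good (Eqv N) (zp a b) := by
  refine ⟨fun i => ps_eq hN h i, ?_, ?_, ?_, ?_⟩
  · rintro x (rfl | ⟨i, rfl⟩)
    · rfl
    · exact len_eq hN h i
  · rintro x (rfl | ⟨i, rfl⟩) k
    · have e : ([] : List ℚ).take k = [] := List.take_nil
      change Eqv N (([] : List ℚ).take k) (([] : List ℚ).take k)
      exact ⟨rfl, fun _ _ => Iff.rfl⟩
    · have hl := len_eq hN h i
      change Eqv N ((a i).nd.take k) ((b i).nd.take k)
      refine ⟨by rw [List.length_take, List.length_take, hl], fun Q hQ => ?_⟩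
      rw [List.length_take] at hQ
      have h1 := dfn_iff hN h hQ i (min_le_right _ _) (by rw [← hl]; exact min_le_right _ _)
      have h2 : (a i).nd.take k = (a i).nd.take (min k (a i).nd.length) := List.take_eq_take_min
      have h3 : (b i).nd.take k = (b i).nd.take (min k (a i).nd.length) := by
        rw [hl]
        exact List.take_eq_take_min
      rw [h2, h3]
      exact h1
  · rintro x (rfl | ⟨i, rfl⟩) y (rfl | ⟨j, rfl⟩) k
    · exact Iff.rfl
    · have hl := len_eq hN h j
      change ([] : List ℚ).take k = (a j).nd.take k ↔ ([] : List ℚ).take k = (b j).nd.take k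
      rw [List.take_nil, eq_comm, List.take_eq_nil_iff, eq_comm (a := ([] : List ℚ)),
        List.take_eq_nil_iff, ← List.length_eq_zero_iff, ← List.length_eq_zero_iff, hl]
    · have hl := len_eq hN h i
      change (a i).nd.take k = ([] : List ℚ).take k ↔ (b i).nd.take k = ([] : List ℚ).take k
      rw [List.take_nil, List.take_eq_nil_iff, List.take_eq_nil_iff,
        ← List.length_eq_zero_iff, ← List.length_eq_zero_iff, hl]
    · exact tak_iff hN h i j k
  · rintro x (rfl | ⟨i, rfl⟩) y (rfl | ⟨j, rfl⟩)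
    · exact Iff.rfl
    · change [] < (a j).nd ↔ [] < (b j).nd
      rw [nil_lt, nil_lt, len_eq hN h j]
    · change (a i).nd < [] ↔ (b i).nd < []
      exact iff_of_false (not_lt_nil' _) (not_lt_nil' _)
    · change (a i).nd < (a j).nd ↔ (b i).nd < (b j).nd
      rw [nd_lt_iff, nd_lt_iff, h.iff_le i j, Ne, Ne, nd_eq_iff hN h i j]

end Pool.Agent.Work.MP_f1d084_lc.M
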