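import Mathlib
import Pool.Agent.Work.MP_f1d084_lc.M.Typ
import Pool.Agent.Work.MP_f1d084_lc.M.EFg
import Pool.Agent.Work.MP_f1d084_lc.M.Aut
import Pool.Agent.Work.MP_f1d084_lc.M.Knd
import Pool.Agent.Work.MP_f1d084_lc.M.Cod
import Pool.Agent.Work.MP_f1d084_lc.M.Lvl
import Pool.Agent.Work.MP_f1d084_lc.M.SpE

set_option autoImplicit false

namespace Pool.Agent.Work.MP_f1d084_lc.M

variable {X : Type} [TopologicalSpace X] (S : ℕ → ℕ → (k : ℕ) → BC X k)

theorem good_mono {R R' : List ℚ → List ℚ → Prop} {Z : Set (List ℚ × List ℚ)}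
    (h : ∀ σ τ, σ.length = τ.length → R σ τ → R' σ τ) (hg : Good R Z) : Good R' Z where
  len := hg.len
  rel := fun x hx k => h _ _ (by rw [List.length_take, List.length_take, hg.len x hx]) (hg.rel x hx k)
  tak := hg.tak
  ord := hg.ord

/-- Positive case. -/
theorem elemHomog_of (x : X) (hA : ∀ c, ∃ d, ∀ k, x ∈ den k (S c d k)) :
    ElemHomog (LL (lab S x)) := by
  intro n a b hab
  obtain ⟨h1, h2⟩ := good_of_sameType (lab_div S x) a b hab
  let R : List ℚ → List ℚ → Prop := fun σ τ => σ.length = τ.length ∧ RA x (st S σ) (st S τ)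
  have h3 : Good R (zp a b) :=
    good_mono (fun σ τ hl h => ⟨hl, ra_of_eqv S x σ τ h⟩) h2
  refine auto_of_good R ?_ ?_ ?_ a b h1 h3
  · rintro σ τ ⟨h4, h5⟩
    unfold lab
    rw [h4, ra_clr x _ _ h5]
  · rintro σ τ ⟨h4, h5⟩
    exact ⟨h4.symm, ra_symm x _ _ h5⟩
  · intro Z hZ hg h0 σ
    refine good_ext (R := R) (R' := R) (fun _ _ h => h) ?_ hZ hg h0 σ
    rintro σ τ ⟨h4, h5⟩ q ρ lo hi hlh
    exact step S (RA x) (RA x) (RA x) (ra_sim S x hA) (ra_sim S x hA) (fun _ _ h => h) σ τ h4 h5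
      q ρ lo hi hlh

theorem exists_col (j : ℕ) : ∃ q : ℚ, col q = j := by
  obtain ⟨q, -, -, h⟩ := col_dense 0 1 one_pos j
  exact ⟨q, h⟩

theorem st_spine (q0 : ℚ) (hq : col q0 = 0) (c : ℕ) :
    st S (List.replicate c q0) = .sp c := by
  induction c with
  | zero => rfl
  | succ c ih =>
    rw [List.replicate_succ', st_append_singleton, ih, hq]
    rfl

/-- Negative case. -/
theorem not_elemHomog_of (x : X) (c : ℕ) (hc : ∀ d, ∃ k, x ∉ den k (S c d k)) :
    ¬ ElemHomog (LL (lab S x)) := by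
  intro hE
  obtain ⟨q0, hq0⟩ := exists_col 0
  obtain ⟨q1, hq1⟩ := exists_col 1
  obtain ⟨q2, hq2⟩ := exists_col 2
  set ρ : List ℚ := List.replicate c q0 with hρ
  have hst : st S ρ = .sp c := st_spine S q0 hq0 c
  have hU : st S (ρ ++ [q1]) = .U c true := by
    rw [st_append_singleton, hst, hq1]
    simp [ch]
  have hV : st S (ρ ++ [q2]) = .U c false := by
    rw [st_append_singleton, hst, hq2]
    simp [ch]
  let a : Fin 1 → LL (lab S x) := fun _ => ⟨ρ ++ [q1], 0⟩
  let b : Fin 1 → LL (lab S x) := fun _ => ⟨ρ ++ [q2], 0⟩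
  -- the types are the same
  let R : ℕ → List ℚ → List ℚ → Prop := fun r σ τ =>
    σ.length = τ.length ∧ FR x r (st S σ) (st S τ)
  have hgood : ∀ r, Good (R r) (zp a b) := by
    intro r
    have hz : ∀ y ∈ zp a b, y = ([], []) ∨ y = (ρ ++ [q1], ρ ++ [q2]) := by
      rintro y (hy | ⟨i, hy⟩)
      · exact Or.inl hy
      · exact Or.inr hy.symm
    have htake : ∀ k, k ≤ ρ.length → (ρ ++ [q1]).take k = (ρ ++ [q2]).take k := by
      intro k hk
      rw [List.take_append_of_le_length hk, List.take_append_of_le_length hk]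
    have hlen1 : (ρ ++ [q1]).length = ρ.length + 1 := by simp
    have hlen2 : (ρ ++ [q2]).length = ρ.length + 1 := by simp
    have hnil : ∀ (q : ℚ) (k : ℕ), (ρ ++ [q]).take k = [] ↔ k = 0 := by
      intro q k
      rw [List.take_eq_nil_iff]
      simp
    refine ⟨?_, ?_, ?_, ?_⟩
    · intro y hy
      rcases hz y hy with rfl | rfl
      · rfl
      · rw [hlen1, hlen2]
    · intro y hy k
      rcases hz y hy with rfl | rfl
      · simp only [List.take_nil]
        exact ⟨rfl, fr_refl _ _ _⟩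
      · simp only
        by_cases hk : k ≤ ρ.length
        · rw [htake k hk]
          exact ⟨rfl, fr_refl _ _ _⟩
        · rw [List.take_of_length_le (by omega), List.take_of_length_le (by omega)]
          refine ⟨by rw [hlen1, hlen2], ?_⟩
          rw [hU, hV]
          rfl
    · intro y hy z hz' k
      rcases hz y hy with rfl | rfl <;> rcases hz z hz' with rfl | rfl
      · simp
      · simp only [List.take_nil]
        rw [eq_comm, hnil, eq_comm (a := ([] : List ℚ)), hnil]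
      · simp only [List.take_nil]
        rw [hnil, hnil]
      · simp
    · intro y hy z hz'
      have hpos : ∀ q : ℚ, ([] : List ℚ) < ρ ++ [q] := by
        intro q
        rw [list_lt_iff]
        left
        cases hρ' : ρ with
        | nil => exact ⟨q, [], rfl⟩
        | cons p l => exact ⟨p, l ++ [q], rfl⟩
      rcases hz y hy with rfl | rfl <;> rcases hz z hz' with rfl | rfl
      · simp
      · exact iff_of_true (hpos _) (hpos _)
      · exact iff_of_false (hpos _).not_gt (hpos _).not_gt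
      · simp
  have htpk : ∀ r, tpk r 1 a = tpk r 1 b := by
    intro r
    refine tpk_eq_of_good R ?_ ?_ ?_ r 1 a b (fun _ => rfl) (hgood r)
    · rintro r σ τ ⟨h4, h5⟩
      unfold lab
      rw [h4, fr_clr x r _ _ h5]
    · rintro r σ τ ⟨h4, h5⟩
      exact ⟨h4.symm, fr_symm x r _ _ h5⟩
    · intro r Z hZ hg h0 σ
      refine good_ext (R := R (r + 1)) (R' := R r) (fun _ _ h => ⟨h.1, fr_mono x r _ _ h.2⟩) ?_
        hZ hg h0 σ
      rintro σ τ ⟨h4, h5⟩ q ρ lo hi hlh
      exact step S (FR x (r + 1)) (FR x r) (WR x r) (wr_sim S x r)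
        (fun a b h i => wr_sim S x r a b (fr_wr x r a b h) i) (wr_fr x r) σ τ h4 h5
        q ρ lo hi hlh
  have hsame : SameType a b := (sameType_iff a b).mpr htpk
  obtain ⟨f, hf⟩ := hE 1 a b hsame
  -- the child with all bits one
  obtain ⟨q5, hq5⟩ := exists_col 2
  let w : LL (lab S x) := ⟨ρ ++ [q1] ++ [q5], 0⟩
  have hw : st S w.nd = .E ones := by
    show st S (ρ ++ [q1] ++ [q5]) = _
    rw [st_append_singleton, hU, hq5]
    simp [ch]
  let A : Fin 2 → LL (lab S x) := ![a 0, w]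
  have hAB := SameType.of_iso f A
  obtain ⟨-, hg⟩ := good_of_sameType (lab_div S x) A (fun i => f (A i)) hAB
  have hm0 : ((A 0).nd, (f (A 0)).nd) ∈ zp A (fun i => f (A i)) := Or.inr ⟨0, rfl⟩
  have hm1 : ((A 1).nd, (f (A 1)).nd) ∈ zp A (fun i => f (A i)) := Or.inr ⟨1, rfl⟩
  have hA0 : (A 0).nd = ρ ++ [q1] := rfl
  have hA1 : (A 1).nd = ρ ++ [q1] ++ [q5] := rfl
  have hfA0 : (f (A 0)).nd = ρ ++ [q2] := by
    have : f (A 0) = b 0 := hf 0
    rw [this]
  set τ := (f (A 1)).nd with hτ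
  have hlenτ : τ.length = ρ.length + 2 := by
    have := hg.len _ hm1
    simp only [hA1] at this
    rw [← this]
    simp
  have htakeτ : τ.take (ρ.length + 1) = ρ ++ [q2] := by
    have := (hg.tak _ hm1 _ hm0 (ρ.length + 1)).mp (by
      simp only [hA1, hA0]
      rw [List.take_append_of_le_length (by simp), List.take_of_length_le (by simp)])
    simp only [hfA0] at this
    rw [this, List.take_of_length_le (by simp)]
  obtain ⟨q', hq'⟩ : ∃ q', τ = ρ ++ [q2] ++ [q'] := by
    have h5 := List.take_append_drop (ρ.length + 1) τ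
    rw [htakeτ] at h5
    have h6 : (τ.drop (ρ.length + 1)).length = 1 := by
      rw [List.length_drop, hlenτ]
      omega
    obtain ⟨q', hq'⟩ := List.length_eq_one_iff.mp h6
    exact ⟨q', by rw [← h5, hq']⟩
  have hRA : RA x (st S w.nd) (st S τ) := by
    refine ra_of_eqv S x _ _ ?_
    have := hg.rel _ hm1 (ρ.length + 2)
    simp only [hA1] at this
    rw [List.take_of_length_le (by simp), List.take_of_length_le hlenτ.le] at this
    exact this
  rw [hw, hq', st_append_singleton, hV] at hRA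
  have hall : ∀ s : (k : ℕ) → BC X k, RA x (.E ones) (.E s) → ∀ k, x ∈ den k (s k) := by
    intro s hs k
    exact (hs k).mp ((mem_den_cst x k true).mpr rfl)
  have hpat : ∀ l : List Bool, ¬ ∀ k, x ∈ den k ((pat l : (k : ℕ) → BC X k) k) := by
    intro l h
    have := h l.length
    unfold pat at this
    rw [mem_den_cst] at this
    simp at this
  have hch : ch S (St.U c false) (col q') = if col q' % 3 = 0 then .E (pat (dec (col q' / 3))) else
      if col q' % 3 = 1 then .E (S c (col q' / 3)) else .E (pat []) := rfl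
  rw [hch] at hRA
  by_cases h7 : col q' % 3 = 0
  · rw [if_pos h7] at hRA
    exact hpat _ (hall _ hRA)
  · rw [if_neg h7] at hRA
    by_cases h8 : col q' % 3 = 1
    · rw [if_pos h8] at hRA
      obtain ⟨k, hk⟩ := hc (col q' / 3)
      exact hk (hall _ hRA k)
    · rw [if_neg h8] at hRA
      exact hpat _ (hall _ hRA)

/-- The reduction to linear orders. -/
theorem hard_lin (hX : ∃ b : ℕ → Set X, (∀ n, IsClopen (b n)) ∧
    TopologicalSpace.IsTopologicalBasis (Set.range b)) (A : Set X) (hA : PiW2 A) :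
    ∃ g : X → Code, Continuous g ∧ (∀ x, IsPO (g x)) ∧
      (∀ x, ∀ a b : OfCode (g x), a ≤ b ∨ b ≤ a) ∧ ∀ x, g x ∈ EH ↔ x ∈ A := by
  obtain ⟨S, hS⟩ := codes_of_PiW2 hX A hA
  obtain ⟨g, hg, hiso⟩ := exists_code (fun x => lab S x) (continuous_lab S)
  have hPO : ∀ x, IsPO (g x) := by
    intro x
    obtain ⟨e⟩ := hiso x
    refine ⟨fun a => ?_, fun a b h1 h2 => ?_, fun a b c h1 h2 => ?_⟩
    · rw [← e.le_iff_le]
    · apply e.injective
      exact le_antisymm (e.le_iff_le.mpr h1) (e.le_iff_le.mpr h2)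
    · rw [← e.le_iff_le] at h1 h2 ⊢
      exact h1.trans h2
  refine ⟨g, hg, hPO, fun x a b => ?_, fun x => ?_⟩
  · obtain ⟨e⟩ := hiso x
    rw [← e.le_iff_le, ← e.le_iff_le (x := b)]
    exact le_total _ _
  · obtain ⟨e⟩ := hiso x
    have h1 : g x ∈ EH ↔ ElemHomog (LL (lab S x)) :=
      ⟨fun h => ElemHomog.of_iso e h.2, fun h => ⟨hPO x, ElemHomog.of_iso e.symm h⟩⟩
    rw [h1, hS]
    constructor
    · intro h
      by_contra h2
      push Not at h2
      obtain ⟨c, hc⟩ := h2
      exact not_elemHomog_of S x c hc h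
    · exact elemHomog_of S x

/-- The reduction to posets of height two. -/
theorem hard_two (hX : ∃ b : ℕ → Set X, (∀ n, IsClopen (b n)) ∧
    TopologicalSpace.IsTopologicalBasis (Set.range b)) (A : Set X) (hA : PiW2 A) :
    ∃ g : X → Code, Continuous g ∧ (∀ x, IsPO (g x)) ∧
      (∀ x, ∀ a b c : OfCode (g x), a ≤ b → b ≤ c → a = b ∨ b = c) ∧ ∀ x, g x ∈ EH ↔ x ∈ A := by
  obtain ⟨g, hg, hPO, -, hE⟩ := hard_lin hX A hA
  obtain ⟨h, hh, hspl⟩ := exists_splCode
  have hPO' : ∀ x, IsPO (h (g x)) := by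
    intro x
    obtain ⟨e⟩ := hspl (g x)
    obtain ⟨p1, p2, p3⟩ := hPO x
    let _ : PartialOrder (OfCode (g x)) := { le_refl := p1, le_trans := p3, le_antisymm := p2 }
    refine ⟨fun a => ?_, fun a b h1 h2 => ?_, fun a b c h1 h2 => ?_⟩
    · rw [← e.le_iff_le]
      exact spl_refl _
    · apply e.injective
      exact spl_antisymm _ _ (e.le_iff_le.mpr h1) (e.le_iff_le.mpr h2)
    · rw [← e.le_iff_le] at h1 h2 ⊢
      exact spl_trans _ _ _ h1 h2
  refine ⟨fun x => h (g x), hh.comp hg, hPO', fun x a b c h1 h2 => ?_, fun x => ?_⟩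
  · obtain ⟨e⟩ := hspl (g x)
    rw [← e.le_iff_le] at h1 h2
    exact (spl_height _ _ _ h1 h2).imp (fun h => e.injective h) (fun h => e.injective h)
  · obtain ⟨e⟩ := hspl (g x)
    obtain ⟨p1, p2, p3⟩ := hPO x
    let _ : PartialOrder (OfCode (g x)) := { le_refl := p1, le_trans := p3, le_antisymm := p2 }
    have h2 : h (g x) ∈ EH ↔ ElemHomog (Spl (OfCode (g x))) :=
      ⟨fun h => ElemHomog.of_iso e h.2, fun h => ⟨hPO' x, ElemHomog.of_iso e.symm h⟩⟩
    rw [h2, elemHomog_spl_iff, ← hE x]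
    exact ⟨fun h => ⟨hPO x, h⟩, fun h => h.2⟩

end Pool.Agent.Work.MP_f1d084_lc.M
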