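import Mathlib
import Pool.Agent.Work.MP_f1d084_lc.M.Fin

set_option autoImplicit false

namespace Pool.Agent.Work.MP_f1d084_lc.M

open TopologicalSpace

theorem exists_nat_basis {X : Type} [TopologicalSpace X] [SecondCountableTopology X]
    (hX : IsTopologicalBasis {U : Set X | IsClopen U}) :
    ∃ b : ℕ → Set X, (∀ n, IsClopen (b n)) ∧ IsTopologicalBasis (Set.range b) := by
  obtain ⟨B, hB1, hB2, hB3⟩ := hX.exists_countable
  have hins : IsTopologicalBasis (insert ∅ B) := hB3.insert_empty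
  have hc : (insert ∅ B).Countable := hB2.insert _
  obtain ⟨b, hb⟩ := hc.exists_eq_range (Set.insert_nonempty _ _)
  refine ⟨b, fun n => ?_, hb ▸ hins⟩
  have : b n ∈ insert ∅ B := by rw [hb]; exact ⟨n, rfl⟩
  rcases this with h | h
  · rw [h]; exact isClopen_empty
  · exact hB1 h

/-- Zero-dimensional second countable spaces. -/
theorem hard_main {X : Type} [TopologicalSpace X] [SecondCountableTopology X]
    (hX : IsTopologicalBasis {U : Set X | IsClopen U}) (A : Set X) (hA : PiW2 A) :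
    (∃ g : X → Code, Continuous g ∧ (∀ x, IsPO (g x)) ∧
      (∀ x, ∀ a b : OfCode (g x), a ≤ b ∨ b ≤ a) ∧ ∀ x, g x ∈ EH ↔ x ∈ A) ∧
    ∃ g : X → Code, Continuous g ∧ (∀ x, IsPO (g x)) ∧
      (∀ x, ∀ a b c : OfCode (g x), a ≤ b → b ≤ c → a = b ∨ b = c) ∧ ∀ x, g x ∈ EH ↔ x ∈ A :=
  ⟨hard_lin (exists_nat_basis hX) A hA, hard_two (exists_nat_basis hX) A hA⟩

/-- The Cantor space. -/
theorem hard_cantor (A : Set (ℕ → Bool)) (hA : PiW2 A) :
    (∃ g : (ℕ → Bool) → Code, Continuous g ∧ (∀ x, IsPO (g x)) ∧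
      (∀ x, ∀ a b : OfCode (g x), a ≤ b ∨ b ≤ a) ∧ ∀ x, g x ∈ EH ↔ x ∈ A) ∧
    ∃ g : (ℕ → Bool) → Code, Continuous g ∧ (∀ x, IsPO (g x)) ∧
      (∀ x, ∀ a b c : OfCode (g x), a ≤ b → b ≤ c → a = b ∨ b = c) ∧ ∀ x, g x ∈ EH ↔ x ∈ A :=
  hard_main isTopologicalBasis_isClopen A hA

end Pool.Agent.Work.MP_f1d084_lc.M
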